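import Mathlib

set_option linter.unusedSectionVars false

namespace Pool.Agent.Helper168.NottDefs

open PowerSeries Topology
open scoped commutatorElement


/-- The Nottingham group `J = N(F_p)`: formal power series `X + a₂X² + a₃X³ + ⋯` over `ZMod p`.
The product of `f` and `g` is the composite `f(g(X))`. -/
@[ext]
structure Nott (p : ℕ) where
  /-- the underlying power series -/
  ser : PowerSeries (ZMod p)
  c0 : PowerSeries.coeff 0 ser = 0
  c1 : PowerSeries.coeff 1 ser = 1

namespace Nott

variable {p : ℕ}

theorem hasSubst_of {g : PowerSeries (ZMod p)} (hg : PowerSeries.coeff 0 g = 0) :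
    PowerSeries.HasSubst g :=
  PowerSeries.HasSubst.of_constantCoeff_zero' (by simpa using hg)

theorem hasSubst (g : Nott p) : PowerSeries.HasSubst g.ser := hasSubst_of g.c0

theorem X_dvd_of {g : PowerSeries (ZMod p)} (hg : PowerSeries.coeff 0 g = 0) :
    (X : PowerSeries (ZMod p)) ∣ g := by
  rw [X_dvd_iff]; simpa using hg

theorem coeff_pow_lt {g : PowerSeries (ZMod p)} (hg : PowerSeries.coeff 0 g = 0) {n k : ℕ}
    (h : n < k) : PowerSeries.coeff n (g ^ k) = 0 :=
  (X_pow_dvd_iff.1 (pow_dvd_pow_of_dvd (X_dvd_of hg) k)) n h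

theorem coeff_subst_eq {g : PowerSeries (ZMod p)} (hg : PowerSeries.coeff 0 g = 0)
    (f : PowerSeries (ZMod p)) (n : ℕ) :
    PowerSeries.coeff n (PowerSeries.subst g f) =
      ∑ k ∈ Finset.range (n + 1), PowerSeries.coeff k f * PowerSeries.coeff n (g ^ k) := by
  rw [PowerSeries.coeff_subst' (hasSubst_of hg)]
  rw [finsum_eq_sum_of_support_subset (s := Finset.range (n + 1))]
  · simp
  · intro k hk
    simp only [Function.mem_support, smul_eq_mul] at hk
    simp only [Finset.coe_range, Set.mem_Iio]
    by_contra hlt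
    apply hk
    rw [coeff_pow_lt hg (by omega), mul_zero]

/-- `f * g` is `f(g(X))`. -/
noncomputable instance : Mul (Nott p) where
  mul f g := ⟨PowerSeries.subst g.ser f.ser, by
      rw [coeff_subst_eq g.c0]; simp [f.c0], by
      rw [coeff_subst_eq g.c0]
      simp [Finset.sum_range_succ, f.c1, g.c1, f.c0]⟩

noncomputable instance : One (Nott p) where
  one := ⟨X, by simp, by simp⟩

theorem mul_ser (f g : Nott p) : (f * g).ser = PowerSeries.subst g.ser f.ser := rfl

theorem one_ser : (1 : Nott p).ser = X := rfl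

noncomputable instance : Inv (Nott p) where
  inv f := ⟨f.ser.substInvOfIsUnit (by rw [f.c1]; exact isUnit_one), by simp, by
    rw [coeff_one_substInvOfIsUnit]
    have : (IsUnit.unit (by rw [f.c1]; exact isUnit_one : IsUnit (coeff 1 f.ser))) = 1 := by
      rw [Units.ext_iff]; simp [f.c1]
    rw [this]; simp⟩

theorem inv_ser (f : Nott p) : (f⁻¹).ser =
    f.ser.substInvOfIsUnit (by rw [f.c1]; exact isUnit_one) := rfl

noncomputable instance : Group (Nott p) :=
  Group.ofLeftAxioms
    (by
      intro a b c
      apply Nott.ext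
      simp only [mul_ser]
      rw [PowerSeries.subst_comp_subst_apply b.hasSubst c.hasSubst])
    (by
      intro a
      apply Nott.ext
      rw [mul_ser, one_ser, PowerSeries.subst_X a.hasSubst])
    (by
      intro a
      apply Nott.ext
      rw [mul_ser, inv_ser, one_ser]
      exact PowerSeries.subst_substInvOfIsUnit_left a.ser (by simpa using a.c0) _)

theorem coeff_mul_eq (f g : Nott p) (n : ℕ) : PowerSeries.coeff n (f * g).ser =
    ∑ k ∈ Finset.range (n + 1), PowerSeries.coeff k f.ser * PowerSeries.coeff n (g.ser ^ k) :=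
  coeff_subst_eq g.c0 f.ser n

/-- congruence modulo `X^n` -/
def Cong (n : ℕ) (f g : PowerSeries (ZMod p)) : Prop := (X : PowerSeries (ZMod p)) ^ n ∣ f - g

theorem Cong.iff {n : ℕ} {f g : PowerSeries (ZMod p)} :
    Cong n f g ↔ ∀ m < n, PowerSeries.coeff m f = PowerSeries.coeff m g := by
  unfold Cong
  rw [X_pow_dvd_iff]
  simp only [map_sub, sub_eq_zero]

theorem Cong.refl (n : ℕ) (f : PowerSeries (ZMod p)) : Cong n f f := by simp [Cong]
theorem Cong.symm {n : ℕ} {f g : PowerSeries (ZMod p)} (h : Cong n f g) : Cong n g f := by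
  rw [Cong.iff] at *; intro m hm; exact (h m hm).symm
theorem Cong.trans {n : ℕ} {f g k : PowerSeries (ZMod p)} (h : Cong n f g) (h' : Cong n g k) :
    Cong n f k := by
  rw [Cong.iff] at *; intro m hm; exact (h m hm).trans (h' m hm)
theorem Cong.add {n : ℕ} {f g f' g' : PowerSeries (ZMod p)} (h : Cong n f g) (h' : Cong n f' g') :
    Cong n (f + f') (g + g') := by
  unfold Cong at *
  have : f + f' - (g + g') = (f - g) + (f' - g') := by ring
  rw [this]; exact dvd_add h h'
theorem Cong.mul {n : ℕ} {f g f' g' : PowerSeries (ZMod p)} (h : Cong n f g) (h' : Cong n f' g') :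
    Cong n (f * f') (g * g') := by
  unfold Cong at *
  have : f * f' - (g * g') = (f - g) * f' + g * (f' - g') := by ring
  rw [this]; exact dvd_add (h.mul_right _) (h'.mul_left _)
theorem Cong.pow {n : ℕ} {f g : PowerSeries (ZMod p)} (h : Cong n f g) (k : ℕ) :
    Cong n (f ^ k) (g ^ k) := by
  induction k with
  | zero => simp [Cong]
  | succ k ih => rw [pow_succ, pow_succ]; exact ih.mul h
theorem Cong.mono {n m : ℕ} {f g : PowerSeries (ZMod p)} (h : Cong n f g) (hm : m ≤ n) :
    Cong m f g := by
  rw [Cong.iff] at *; intro k hk; exact h k (by omega)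

theorem Cong.mulN {n : ℕ} {f g f' g' : Nott p} (h : Cong n f.ser g.ser)
    (h' : Cong n f'.ser g'.ser) : Cong n (f * f').ser (g * g').ser := by
  rw [Cong.iff]
  intro m hm
  rw [coeff_mul_eq, coeff_mul_eq]
  apply Finset.sum_congr rfl
  intro k hk
  rw [Finset.mem_range] at hk
  rw [Cong.iff.1 h k (by omega), Cong.iff.1 (h'.pow k) m hm]

/-- The subgroup `J_n` of series congruent to `X` modulo `X^(n+1)`. -/
def lev (p n : ℕ) : Subgroup (Nott p) where
  carrier := {f | Cong (n + 1) f.ser X}
  one_mem' := by
    change Cong (n + 1) (1 : Nott p).ser X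
    rw [one_ser]; exact Cong.refl _ _
  mul_mem' := by
    intro a b ha hb
    have := Cong.mulN (g := 1) (g' := 1) (h := ha) (h' := hb)
    rw [one_mul, one_ser] at this
    exact this
  inv_mem' := by
    intro a ha
    have := Cong.mulN (f := a) (g := 1) (f' := a⁻¹) (g' := a⁻¹) (h := ha) (h' := Cong.refl _ _)
    rw [one_mul, mul_inv_cancel, one_ser] at this
    exact this.symm

theorem mem_lev {n : ℕ} {f : Nott p} : f ∈ lev p n ↔ Cong (n + 1) f.ser X := Iff.rfl

theorem mem_lev_iff {n : ℕ} {f : Nott p} :
    f ∈ lev p n ↔ ∀ m, 2 ≤ m → m ≤ n → PowerSeries.coeff m f.ser = 0 := by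
  rw [mem_lev, Cong.iff]
  constructor
  · intro h m h2 hm
    rw [h m (by omega), coeff_X, if_neg (by omega)]
  · intro h m hm
    match m with
    | 0 => rw [f.c0]; simp
    | 1 => rw [f.c1]; simp
    | m + 2 => rw [h (m + 2) (by omega) (by omega), coeff_X, if_neg (by omega)]

theorem cong_iff_mem {n : ℕ} {f g : Nott p} : Cong (n + 1) f.ser g.ser ↔ g⁻¹ * f ∈ lev p n := by
  constructor
  · intro h
    have := Cong.mulN (f := g⁻¹) (g := g⁻¹) (f' := f) (g' := g) (h := Cong.refl _ _) (h' := h)
    rw [inv_mul_cancel, one_ser] at this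
    exact this
  · intro h
    have := Cong.mulN (f := g) (g := g) (f' := g⁻¹ * f) (g' := 1) (h := Cong.refl _ _) (h' := h)
    rw [mul_inv_cancel_left, mul_one] at this
    exact this

theorem cong_iff_mem' {n : ℕ} {f g : Nott p} : Cong (n + 1) f.ser g.ser ↔ f * g⁻¹ ∈ lev p n := by
  constructor
  · intro h
    have := Cong.mulN (f := f) (g := g) (f' := g⁻¹) (g' := g⁻¹) (h := h) (h' := Cong.refl _ _)
    rw [mul_inv_cancel, one_ser] at this
    exact this
  · intro h
    have := Cong.mulN (f := f * g⁻¹) (g := 1) (f' := g) (g' := g) (h := h) (h' := Cong.refl _ _)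
    rw [inv_mul_cancel_right, one_mul] at this
    exact this

instance lev_normal (n : ℕ) : (lev p n).Normal := by
  constructor
  intro f hf g
  rw [← cong_iff_mem']
  have := Cong.mulN (f := g) (g := g) (f' := f) (g' := 1) (h := Cong.refl _ _) (h' := hf)
  rw [mul_one] at this
  exact this

theorem lev_mono {m n : ℕ} (h : m ≤ n) : lev p n ≤ lev p m := by
  intro f hf
  rw [mem_lev] at *
  exact hf.mono (by omega)

theorem lev_one : lev p 1 = ⊤ := by
  rw [eq_top_iff]
  intro f _
  rw [mem_lev_iff]
  intro m h2 h1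
  omega

end Nott

namespace Nott
variable {p : ℕ}

/-- the coefficient sequence -/
noncomputable def cf (f : Nott p) : ℕ → ZMod p := fun n => PowerSeries.coeff n f.ser

theorem cf_injective : Function.Injective (cf (p := p)) := by
  intro f g h
  apply Nott.ext
  ext n
  exact congrFun h n

/-- The topology of coefficientwise convergence, with `ZMod p` discrete. The subgroups `lev p n`
form a base of neighbourhoods of `1`, see `nhds_one_hasBasis`. -/
noncomputable instance : TopologicalSpace (Nott p) :=
  TopologicalSpace.induced cf (@Pi.topologicalSpace ℕ (fun _ => ZMod p) (fun _ => ⊥))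

theorem continuous_iff_coeff {Y : Type*} [TopologicalSpace Y] (φ : Y → Nott p) :
    Continuous φ ↔ ∀ n, IsLocallyConstant fun y => PowerSeries.coeff n (φ y).ser := by
  let _ : TopologicalSpace (ZMod p) := ⊥
  have : DiscreteTopology (ZMod p) := ⟨rfl⟩
  rw [continuous_induced_rng, continuous_pi_iff]
  refine forall_congr' fun n => ?_
  rw [IsLocallyConstant.iff_continuous]
  rfl

theorem coeff_locConst (n : ℕ) : IsLocallyConstant fun f : Nott p => PowerSeries.coeff n f.ser :=
  (continuous_iff_coeff (Y := Nott p) id).1 continuous_id n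

theorem _root_.Pool.Agent.Helper168.NottDefs.isLocConst_sum {Y ι A : Type*} [TopologicalSpace Y] [AddCommMonoid A] (s : Finset ι)
    (F : ι → Y → A) (h : ∀ i ∈ s, IsLocallyConstant (F i)) :
    IsLocallyConstant fun y => ∑ i ∈ s, F i y := by
  classical
  induction s using Finset.induction_on with
  | empty => simp only [Finset.sum_empty]; exact IsLocallyConstant.const 0
  | insert a s ha ih =>
    have h1 := h a (Finset.mem_insert_self a s)
    have h2 := ih fun i hi => h i (Finset.mem_insert_of_mem hi)
    have := h1.add h2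
    simp only [Finset.sum_insert ha]
    exact this

theorem coeff_pow_locConst (k n : ℕ) :
    IsLocallyConstant fun f : Nott p => PowerSeries.coeff n (f.ser ^ k) := by
  induction k generalizing n with
  | zero => simp only [pow_zero]; exact IsLocallyConstant.const _
  | succ k ih =>
    simp only [pow_succ, PowerSeries.coeff_mul]
    apply isLocConst_sum
    intro i _
    exact (ih i.1).mul (coeff_locConst i.2)

theorem continuous_mul' : Continuous fun q : Nott p × Nott p => q.1 * q.2 := by
  rw [continuous_iff_coeff]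
  intro n
  simp only [coeff_mul_eq]
  apply isLocConst_sum
  intro i _
  exact ((coeff_locConst i).comp_continuous continuous_fst).mul
    ((coeff_pow_locConst i n).comp_continuous continuous_snd)

theorem isOpen_cong (n : ℕ) (f : Nott p) : IsOpen {g : Nott p | Cong n g.ser f.ser} := by
  have : {g : Nott p | Cong n g.ser f.ser} =
      ⋂ m ∈ Finset.range n, {g : Nott p | PowerSeries.coeff m g.ser = PowerSeries.coeff m f.ser} := by
    ext g
    simp only [Set.mem_ofPred_eq, Cong.iff, Finset.mem_range, Set.mem_iInter]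
  rw [this]
  apply isOpen_biInter_finset
  intro m _
  exact (coeff_locConst m).isOpen_fiber _

theorem isOpen_lev (n : ℕ) : IsOpen (lev p n : Set (Nott p)) := isOpen_cong (n + 1) 1

theorem continuous_inv' : Continuous fun f : Nott p => f⁻¹ := by
  rw [continuous_iff_coeff]
  intro n
  rw [IsLocallyConstant.iff_exists_open]
  intro f
  refine ⟨{g : Nott p | Cong (n + 1) g.ser f.ser}, isOpen_cong (n + 1) f, Cong.refl _ _, ?_⟩
  intro g hg
  have h1 : g * f⁻¹ ∈ lev p n := cong_iff_mem'.1 hg
  have h2 : f⁻¹ * g ∈ lev p n := cong_iff_mem.1 hg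
  have h3 : (f⁻¹)⁻¹ * g⁻¹ ∈ lev p n := by
    have := inv_mem h1
    rw [mul_inv_rev, inv_inv] at this
    rwa [inv_inv]
  exact Cong.iff.1 (cong_iff_mem.2 h3) n (by omega)

instance : IsTopologicalGroup (Nott p) where
  continuous_mul := continuous_mul'
  continuous_inv := continuous_inv'

/-- every neighbourhood of `1` contains some `J_n` -/
theorem exists_lev_subset {U : Set (Nott p)} (hU : U ∈ 𝓝 (1 : Nott p)) :
    ∃ n, (lev p n : Set (Nott p)) ⊆ U := by
  let _ : TopologicalSpace (ZMod p) := ⊥
  have : DiscreteTopology (ZMod p) := ⟨rfl⟩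
  rw [nhds_induced, Filter.mem_comap] at hU
  obtain ⟨V, hV, hVU⟩ := hU
  rw [nhds_pi, Filter.mem_pi] at hV
  obtain ⟨I, hI, t, ht, htV⟩ := hV
  obtain ⟨n, hn⟩ := hI.bddAbove
  refine ⟨n, fun f hf => hVU (htV ?_)⟩
  intro i hi
  have h1 : cf f i = cf 1 i := Cong.iff.1 (mem_lev.1 hf) i (by have := hn hi; omega)
  rw [h1]
  exact mem_of_mem_nhds (ht i)

theorem nhds_one_hasBasis : (𝓝 (1 : Nott p)).HasBasis (fun n : ℕ => 1 ≤ n)
    fun n => (lev p n : Set (Nott p)) := by
  rw [Filter.hasBasis_iff]
  intro U
  constructor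
  · intro hU
    obtain ⟨n, hn⟩ := exists_lev_subset hU
    exact ⟨n + 1, by omega, fun f hf => hn (lev_mono (Nat.le_succ n) hf)⟩
  · rintro ⟨n, -, hn⟩
    exact Filter.mem_of_superset ((isOpen_lev n).mem_nhds (one_mem _)) hn

end Nott

section General

variable (G : Type*) [Group G] [TopologicalSpace G] [IsTopologicalGroup G]

/-- The closed lower central series: `gamma G 1 = G` and `gamma G (i + 1)` is the closed subgroup
generated by the commutators of elements of `gamma G i` with elements of `G`. -/
def gamma : ℕ → Subgroup G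
  | 0 => ⊤
  | 1 => ⊤
  | (n + 2) => (⁅gamma (n + 1), (⊤ : Subgroup G)⁆).topologicalClosure

/-- `G` is a pro-`p` group: compact, Hausdorff, totally disconnected, and every quotient by an
open normal subgroup is a `p`-group. -/
def IsProP (p : ℕ) : Prop :=
  CompactSpace G ∧ T2Space G ∧ TotallyDisconnectedSpace G ∧
    ∀ (N : Subgroup G) [N.Normal], IsOpen (N : Set G) → IsPGroup p (G ⧸ N)

instance gamma_normal (n : ℕ) : (gamma G n).Normal := by
  induction n using Nat.strong_induction_on with
  | _ n ih =>
    match n with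
    | 0 => exact inferInstanceAs (⊤ : Subgroup G).Normal
    | 1 => exact inferInstanceAs (⊤ : Subgroup G).Normal
    | n + 2 =>
      have := ih (n + 1) (by omega)
      have h2 : (⁅gamma G (n + 1), (⊤ : Subgroup G)⁆).Normal := Subgroup.commutator_normal _ _
      exact Subgroup.is_normal_topologicalClosure _

end General

end Pool.Agent.Helper168.NottDefs
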