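import Pool.Agent.Helper168.NottTheory
import Pool.Agent.Helper168.NottCert

set_option linter.unusedSectionVars false

namespace Pool.Agent.Helper168.NottDefs

open PowerSeries Topology
open scoped commutatorElement


theorem allN_spec {k : ℕ} {P : ℕ → Bool} (h : allN k P = true) : ∀ n < k, P n = true := by
  induction k with
  | zero => intro n hn; omega
  | succ k ih =>
    rw [allN, Bool.and_eq_true] at h
    intro n hn
    rcases Nat.lt_or_ge n k with h1 | h1
    · exact ih h.2 n h1
    · have : n = k := by omega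
      rw [this]; exact h.1

/-! ### the series part -/

/-- the series with the first `k` base-`BB` digits of `N` as coefficients -/
noncomputable def dS : ℕ → ℕ → PowerSeries (ZMod 5)
  | 0, _ => 0
  | k + 1, N => C ((N % BB : ℕ) : ZMod 5) + X * dS k (N / BB)

/-- `N` has at most `k` digits, each at most `c` -/
def Bd : ℕ → ℕ → ℕ → Prop
  | 0, _, N => N = 0
  | k + 1, c, N => N % BB ≤ c ∧ Bd k c (N / BB)

theorem Bd_zero (k c : ℕ) : Bd k c 0 := by
  induction k with
  | zero => rfl
  | succ k ih => exact ⟨by simp, by simpa using ih⟩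

theorem dS_zero (k : ℕ) : dS k 0 = 0 := by
  induction k with
  | zero => rfl
  | succ k ih => rw [dS]; simp [ih]

theorem Bd_mono {k k' c c' N : ℕ} (h : Bd k c N) (hk : k ≤ k') (hc : c ≤ c') : Bd k' c' N := by
  induction k' generalizing k N with
  | zero =>
    have : k = 0 := by omega
    subst this; exact h
  | succ k' ih =>
    match k with
    | 0 =>
      have h' : N = 0 := h
      rw [h']; exact Bd_zero _ _
    | k + 1 => exact ⟨h.1.trans hc, ih h.2 (by omega)⟩

theorem Bd_add {k c d M N : ℕ} (hM : Bd k c M) (hN : Bd k d N) (h : c + d < BB) :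
    Bd k (c + d) (M + N) ∧ ∀ m, dS m (M + N) = dS m M + dS m N := by
  induction k generalizing M N with
  | zero =>
    have h1 : M = 0 := hM
    have h2 : N = 0 := hN
    subst h1 h2
    exact ⟨rfl, fun m => by simp [dS_zero]⟩
  | succ k ih =>
    have hlt : M % BB + N % BB < BB := by have := hM.1; have := hN.1; omega
    have h1 : (M + N) % BB = M % BB + N % BB := by
      rw [Nat.add_mod, Nat.mod_eq_of_lt hlt]
    have hB : 0 < BB := by norm_num [BB]
    have h2 : (M + N) / BB = M / BB + N / BB := by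
      rw [Nat.add_div hB, if_neg (by omega), add_zero]
    obtain ⟨h3, h4⟩ := ih hM.2 hN.2
    refine ⟨⟨?_, ?_⟩, ?_⟩
    · rw [h1]; have := hM.1; have := hN.1; omega
    · rw [h2]; exact h3
    · intro m
      match m with
      | 0 => simp [dS]
      | m + 1 =>
        rw [dS, dS, dS, h1, h2, h4 m]
        push_cast
        rw [map_add]; ring

theorem Bd_smul {k c a N : ℕ} (hN : Bd k c N) (h : a * c < BB) :
    Bd k (a * c) (a * N) ∧ ∀ m, dS m (a * N) = C ((a : ℕ) : ZMod 5) * dS m N := by
  induction k generalizing N with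
  | zero =>
    have h2 : N = 0 := hN
    subst h2
    exact ⟨by rw [mul_zero]; rfl, fun m => by simp [dS_zero]⟩
  | succ k ih =>
    have hle : a * (N % BB) ≤ a * c := Nat.mul_le_mul_left a hN.1
    have hB : 0 < BB := by norm_num [BB]
    have e : a * N = a * (N % BB) + BB * (a * (N / BB)) := by
      conv_lhs => rw [← Nat.mod_add_div N BB]
      ring
    have h1 : (a * N) % BB = a * (N % BB) := by
      rw [e, Nat.add_mul_mod_self_left, Nat.mod_eq_of_lt (by omega)]
    have h2 : (a * N) / BB = a * (N / BB) := by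
      rw [e, Nat.add_mul_div_left _ _ hB, Nat.div_eq_of_lt (by omega), zero_add]
    obtain ⟨h3, h4⟩ := ih hN.2
    refine ⟨⟨?_, ?_⟩, ?_⟩
    · rw [h1]; exact hle
    · rw [h2]; exact h3
    · intro m
      match m with
      | 0 => simp [dS]
      | m + 1 =>
        rw [dS, dS, h1, h2, h4 m]
        push_cast
        rw [map_mul]; ring

theorem dS_succ_cong (m N : ℕ) : Nott.Cong m (dS (m + 1) N) (dS m N) := by
  induction m generalizing N with
  | zero => simp [Nott.Cong]
  | succ m ih =>
    rw [dS]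
    conv_rhs => rw [dS]
    have := ih (N / BB)
    unfold Nott.Cong at *
    have e : C ((N % BB : ℕ) : ZMod 5) + X * dS (m + 1) (N / BB) -
        (C ((N % BB : ℕ) : ZMod 5) + X * dS m (N / BB)) =
        X * (dS (m + 1) (N / BB) - dS m (N / BB)) := by ring
    rw [e, pow_succ']
    exact mul_dvd_mul_left X this

theorem cong_X_mul {m : ℕ} {f g : PowerSeries (ZMod 5)} (h : Nott.Cong m f g) :
    Nott.Cong (m + 1) (X * f) (X * g) := by
  unfold Nott.Cong at *
  rw [← mul_sub, pow_succ']
  exact mul_dvd_mul_left X h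

theorem Bd_mul (l : ℕ) {N : ℕ} (hN : Bd l 4 N) (k : ℕ) (hk : 16 * k < BB) {M : ℕ}
    (hM : Bd k 4 M) :
    Bd (k + l) (16 * k) (M * N) ∧ ∀ m, Nott.Cong m (dS m (M * N)) (dS m M * dS m N) := by
  induction k generalizing M with
  | zero =>
    have h2 : M = 0 := hM
    subst h2
    rw [zero_mul]
    exact ⟨Bd_zero _ _, fun m => by rw [dS_zero, zero_mul]; exact Nott.Cong.refl _ _⟩
  | succ k ih =>
    have hB : 0 < BB := by norm_num [BB]
    obtain ⟨h3, h4⟩ := ih (by omega) hM.2
    set a := M % BB with ha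
    set M' := M / BB with hM'
    have e : M * N = a * N + BB * (M' * N) := by
      conv_lhs => rw [← Nat.mod_add_div M BB]
      rw [← ha, ← hM']; ring
    have ha4 : a ≤ 4 := hM.1
    obtain ⟨h5, h6⟩ := Bd_smul (a := a) hN (by
      have : a * 4 ≤ 16 := by omega
      have : BB = 1024 := rfl
      omega)
    have h7 : Bd (k + 1 + l) 16 (a * N) := Bd_mono h5 (by omega) (by omega)
    have h8 : Bd (k + 1 + l) (16 * k) (BB * (M' * N)) := by
      rw [show k + 1 + l = (k + l) + 1 by ring]
      refine ⟨?_, ?_⟩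
      · rw [Nat.mul_mod_right]; omega
      · rw [Nat.mul_div_cancel_left _ hB]; exact h3
    obtain ⟨h9, h10⟩ := Bd_add h7 h8 (by omega)
    rw [e]
    refine ⟨?_, ?_⟩
    · rw [show 16 * (k + 1) = 16 + 16 * k by ring]; exact h9
    · intro m
      rw [h10 m, h6 m]
      match m with
      | 0 => simp [Nott.Cong]
      | m + 1 =>
        have h11 : dS (m + 1) (BB * (M' * N)) = X * dS m (M' * N) := by
          rw [dS, Nat.mul_mod_right, Nat.mul_div_cancel_left _ hB]; simp
        rw [h11]
        have h12 : dS (m + 1) M = C ((a : ℕ) : ZMod 5) + X * dS m M' := by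
          rw [dS]
        rw [h12, add_mul]
        apply Nott.Cong.add (Nott.Cong.refl _ _)
        rw [mul_assoc]
        apply cong_X_mul
        exact (h4 m).trans ((Nott.Cong.refl _ _).mul (dS_succ_cong m N).symm)

theorem redN_spec (k N : ℕ) : Bd k 4 (redN k N) ∧ dS k (redN k N) = dS k N := by
  induction k generalizing N with
  | zero => exact ⟨rfl, rfl⟩
  | succ k ih =>
    rw [redN, force_eq]
    have hB : 0 < BB := by norm_num [BB]
    have hd : N % BB % 5 < BB := by
      have : BB = 1024 := rfl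
      omega
    have h1 : (N % BB % 5 + BB * redN k (N / BB)) % BB = N % BB % 5 := by
      rw [Nat.add_mul_mod_self_left, Nat.mod_eq_of_lt hd]
    have h2 : (N % BB % 5 + BB * redN k (N / BB)) / BB = redN k (N / BB) := by
      rw [Nat.add_mul_div_left _ _ hB, Nat.div_eq_of_lt hd, zero_add]
    obtain ⟨h3, h4⟩ := ih (N / BB)
    refine ⟨⟨?_, ?_⟩, ?_⟩
    · rw [h1]; omega
    · rw [h2]; exact h3
    · rw [dS, dS, h1, h2, h4]
      congr 2
      exact ZMod.natCast_mod _ _

theorem mulN_spec {a b : ℕ} (ha : Bd 15 4 a) (hb : Bd 15 4 b) :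
    Bd 15 4 (mulN a b) ∧ Nott.Cong 15 (dS 15 (mulN a b)) (dS 15 a * dS 15 b) := by
  rw [mulN, force_eq]
  refine ⟨(redN_spec 15 _).1, ?_⟩
  rw [(redN_spec 15 _).2]
  exact (Bd_mul 15 hb 15 (by norm_num [BB]) ha).2 15

theorem addN_spec {a b : ℕ} (ha : Bd 15 4 a) (hb : Bd 15 4 b) :
    Bd 15 4 (addN a b) ∧ dS 15 (addN a b) = dS 15 a + dS 15 b := by
  rw [addN, force_eq]
  refine ⟨(redN_spec 15 _).1, ?_⟩
  rw [(redN_spec 15 _).2]
  exact (Bd_add ha hb (by norm_num [BB])).2 15

theorem powN_spec {r : ℕ} (hr : Bd 15 4 r) (k : ℕ) :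
    Bd 15 4 (powN r k) ∧ Nott.Cong 15 (dS 15 (powN r k)) (dS 15 r ^ k) := by
  induction k with
  | zero =>
    refine ⟨?_, ?_⟩
    · change Bd 15 4 1
      refine ⟨by norm_num [BB], ?_⟩
      have : 1 / BB = 0 := by norm_num [BB]
      rw [this]; exact Bd_zero _ _
    · change Nott.Cong 15 (dS 15 1) _
      have h1 : (1 : ℕ) / BB = 0 := by norm_num [BB]
      have h2 : (1 : ℕ) % BB = 1 := by norm_num [BB]
      have : dS 15 1 = 1 := by
        rw [dS, h1, h2, dS_zero]; simp
      rw [this, pow_zero]; exact Nott.Cong.refl _ _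
  | succ k ih =>
    rw [powN, force_eq]
    obtain ⟨h1, h2⟩ := mulN_spec ih.1 hr
    exact ⟨h1, h2.trans (by rw [pow_succ]; exact ih.2.mul (Nott.Cong.refl _ _))⟩

theorem gx_mul_ser (i : ℕ) (g : Nott 5) : (gx 5 i * g).ser = g.ser + g.ser ^ (i + 2) := by
  rw [Nott.mul_ser]
  change PowerSeries.subst g.ser (X + X ^ (i + 1 + 1)) = _
  rw [PowerSeries.subst_add g.hasSubst, PowerSeries.subst_pow g.hasSubst,
    PowerSeries.subst_X g.hasSubst]

theorem runJ_spec (w : List ℕ) :
    Bd 15 4 (runJ w) ∧ Nott.Cong 15 (dS 15 (runJ w)) ((w.map (gx 5)).prod).ser := by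
  induction w with
  | nil =>
    refine ⟨?_, ?_⟩
    · change Bd 15 4 BB
      refine ⟨by norm_num [BB], ?_⟩
      have : BB / BB = 1 := by norm_num [BB]
      rw [this]
      refine ⟨by norm_num [BB], ?_⟩
      have : 1 / BB = 0 := by norm_num [BB]
      rw [this]; exact Bd_zero _ _
    · change Nott.Cong 15 (dS 15 BB) (1 : Nott 5).ser
      have h0 : BB / BB = 1 := by norm_num [BB]
      have h0' : BB % BB = 0 := by norm_num [BB]
      have h1 : (1 : ℕ) / BB = 0 := by norm_num [BB]
      have h2 : (1 : ℕ) % BB = 1 := by norm_num [BB]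
      have : dS 15 BB = X := by
        rw [dS, h0, h0', dS, h1, h2, dS_zero]; simp
      rw [this, Nott.one_ser]; exact Nott.Cong.refl _ _
  | cons i w ih =>
    rw [runJ, force_eq, stepJ, force_eq]
    obtain ⟨h1, h2⟩ := powN_spec ih.1 (i + 2)
    obtain ⟨h3, h4⟩ := addN_spec ih.1 h1
    refine ⟨h3, ?_⟩
    rw [h4, List.map_cons, List.prod_cons, gx_mul_ser]
    exact ih.2.add (h2.trans (ih.2.pow _))

theorem chkJ_spec {l1 l2 : List ℕ} (h : chkJ l1 l2 = true) :
    ((l2.map (gx 5)).prod)⁻¹ * (l1.map (gx 5)).prod ∈ Nott.lev 5 14 := by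
  have h1 : runJ l1 = runJ l2 := Nat.eq_of_beq_eq_true h
  rw [← Nott.cong_iff_mem]
  have h2 := (runJ_spec l1).2
  rw [h1] at h2
  exact h2.symm.trans (runJ_spec l2).2

/-! ### the permutation part -/

abbrev XX : Type := Fin 625 × ZMod 5

/-- table entry -/
def ent (i n : ℕ) : ℕ := (TT.getD i 0 >>> (13 * n)) % 8192

theorem ent_spec {i n : ℕ} (hi : i < 13) (hn : n < 625) : ent i n / 8 < 625 ∧ ent i n % 8 < 5 := by
  have h := tT
  rw [List.all_eq_true] at h
  have hm : TT.getD i 0 ∈ TT := by
    have hlen : i < TT.length := by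
      have : TT.length = 13 := rfl
      omega
    rw [List.getD_eq_getElem _ _ hlen]
    exact List.getElem_mem hlen
  have h2 := allN_spec (h _ hm) n hn
  rw [Bool.and_eq_true] at h2
  refine ⟨?_, ?_⟩
  · have := h2.1
    rw [Nat.blt_eq] at this
    exact this
  · have := h2.2
    rw [Nat.blt_eq] at this
    exact this

/-- the action of the `i`-th generator -/
def act (i : ℕ) : Function.End XX := fun x =>
  (⟨ent i x.1 / 8 % 625, Nat.mod_lt _ (by norm_num)⟩, ((ent i x.1 % 8 : ℕ) : ZMod 5) + x.2)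

/-- the central shift -/
def zE : Function.End XX := fun x => (x.1, 1 + x.2)

theorem zE_pow (k : ℕ) (x : XX) : (zE ^ k) x = (x.1, (k : ZMod 5) + x.2) := by
  induction k generalizing x with
  | zero =>
    rw [pow_zero]
    change x = _
    simp
  | succ k ih =>
    rw [pow_succ]
    change (zE ^ k) (zE x) = _
    rw [ih]
    change (x.1, (k : ZMod 5) + (1 + x.2)) = _
    push_cast
    rw [add_assoc]

theorem runG_spec {w : List ℕ} (hw : ∀ l ∈ w, l < 13) {n : ℕ} (hn : n < 625) :
    runG TT w (8 * n) / 8 < 625 ∧ runG TT w (8 * n) % 8 < 5 ∧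
    ∀ s : ZMod 5, ((w.map act).prod) (⟨n, hn⟩, s) =
      (⟨runG TT w (8 * n) / 8 % 625, Nat.mod_lt _ (by norm_num)⟩,
        ((runG TT w (8 * n) % 8 : ℕ) : ZMod 5) + s) := by
  induction w with
  | nil =>
    rw [runG]
    refine ⟨by omega, by omega, ?_⟩
    intro s
    change ((⟨n, hn⟩, s) : XX) = _
    apply Prod.ext
    · apply Fin.ext
      change n = 8 * n / 8 % 625
      omega
    · change s = ((8 * n % 8 : ℕ) : ZMod 5) + s
      rw [Nat.mul_mod_right]; simp
  | cons i w ih =>
    obtain ⟨h1, h2, h3⟩ := ih fun l hl => hw l (List.mem_cons_of_mem i hl)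
    have hi : i < 13 := hw i (List.mem_cons_self ..)
    set c := runG TT w (8 * n) with hc
    have e : runG TT (i :: w) (8 * n) = ent i (c / 8) / 8 * 8 + (c % 8 + ent i (c / 8) % 8) % 5 := by
      rw [runG, force_eq, stepG, force_eq]
      rfl
    obtain ⟨h4, h5⟩ := ent_spec hi h1
    have hlt : (c % 8 + ent i (c / 8) % 8) % 5 < 5 := Nat.mod_lt _ (by norm_num)
    have e1 : runG TT (i :: w) (8 * n) / 8 = ent i (c / 8) / 8 := by rw [e]; omega
    have e2 : runG TT (i :: w) (8 * n) % 8 = (c % 8 + ent i (c / 8) % 8) % 5 := by rw [e]; omega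
    refine ⟨by rw [e1]; exact h4, by rw [e2]; omega, ?_⟩
    intro s
    rw [List.map_cons, List.prod_cons]
    change act i (((w.map act).prod) (⟨n, hn⟩, s)) = _
    rw [h3 s]
    apply Prod.ext
    · apply Fin.ext
      change ent i (c / 8 % 625) / 8 % 625 = runG TT (i :: w) (8 * n) / 8 % 625
      rw [e1, Nat.mod_eq_of_lt h1]
    · change ((ent i (c / 8 % 625) % 8 : ℕ) : ZMod 5) + (((c % 8 : ℕ) : ZMod 5) + s) =
        ((runG TT (i :: w) (8 * n) % 8 : ℕ) : ZMod 5) + s
      rw [e2, Nat.mod_eq_of_lt h1, ZMod.natCast_mod]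
      push_cast
      ring

theorem chkG_spec {l1 l2 : List ℕ} {z : ℕ} (h1 : ∀ l ∈ l1, l < 13) (h2 : ∀ l ∈ l2, l < 13)
    (h : chkG TT l1 l2 z = true) : (l1.map act).prod = (l2.map act).prod * zE ^ z := by
  funext x
  obtain ⟨⟨n, hn⟩, s⟩ := x
  have h3 := allN_spec h n hn
  rw [ptG, force_eq, force_eq, Bool.and_eq_true] at h3
  have h4 := Nat.eq_of_beq_eq_true h3.1
  have h5 := Nat.eq_of_beq_eq_true h3.2
  rw [(runG_spec h1 hn).2.2 s]
  change _ = (l2.map act).prod ((zE ^ z) (⟨n, hn⟩, s))
  rw [zE_pow, (runG_spec h2 hn).2.2]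
  apply Prod.ext
  · apply Fin.ext
    change _ / 8 % 625 = _ / 8 % 625
    rw [h4]
  · change ((runG TT l1 (8 * n) % 8 : ℕ) : ZMod 5) + s =
      ((runG TT l2 (8 * n) % 8 : ℕ) : ZMod 5) + ((z : ZMod 5) + s)
    rw [h5, ZMod.natCast_mod]
    push_cast
    ring

theorem chkAll_all : ∀ j, j < 13 → chkAll j = true := by
  intro j hj
  interval_cases j
  · exact c0
  · exact c1
  · exact c2
  · exact c3
  · exact c4
  · exact c5
  · exact c6
  · exact c7
  · exact c8
  · exact c9
  · exact c10
  · exact c11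
  · exact c12

theorem goodW_spec {i : ℕ} {w : List ℕ} (h : goodW i w = true) : ∀ l ∈ w, i + 1 ≤ l ∧ l < 13 := by
  intro l hl
  have := (List.all_eq_true.1 h) l hl
  rw [Bool.and_eq_true, Nat.ble_eq, Nat.blt_eq] at this
  exact this

theorem rel_comm {i j : ℕ} (hij : i < j) (hj : j < 13) :
    ∃ (w : List ℕ) (z : ℕ), (∀ l ∈ w, i + 1 ≤ l ∧ l < 13) ∧
      (((i :: j :: w).map (gx 5)).prod)⁻¹ * (([j, i]).map (gx 5)).prod ∈ Nott.lev 5 14 ∧
      (([j, i]).map act).prod = ((i :: j :: w).map act).prod * zE ^ z := by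
  have h := chkAll_all j hj
  rw [chkAll, Bool.and_eq_true] at h
  have h2 := allN_spec h.1 i hij
  dsimp only at h2
  rw [Bool.and_eq_true, Bool.and_eq_true] at h2
  obtain ⟨h3, h4, h5⟩ := h2
  have h6 := goodW_spec h3
  refine ⟨_, _, h6, chkJ_spec h4, chkG_spec ?_ ?_ h5⟩
  · intro l hl
    simp only [List.mem_cons, List.not_mem_nil, or_false] at hl
    omega
  · intro l hl
    simp only [List.mem_cons] at hl
    rcases hl with hl | hl | hl
    · omega
    · omega
    · exact (h6 l hl).2

theorem rel_pow {j : ℕ} (hj : j < 13) :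
    ∃ (w : List ℕ) (z : ℕ), (∀ l ∈ w, j + 1 ≤ l ∧ l < 13) ∧
      ((w.map (gx 5)).prod)⁻¹ * (([j, j, j, j, j]).map (gx 5)).prod ∈ Nott.lev 5 14 ∧
      (([j, j, j, j, j]).map act).prod = (w.map act).prod * zE ^ z := by
  have h := chkAll_all j hj
  rw [chkAll, Bool.and_eq_true] at h
  have h2 := h.2
  rw [chkPow] at h2
  rw [Bool.and_eq_true, Bool.and_eq_true] at h2
  obtain ⟨h3, h4, h5⟩ := h2
  have h6 := goodW_spec h3
  refine ⟨_, _, h6, chkJ_spec h4, chkG_spec ?_ ?_ h5⟩
  · intro l hl
    simp only [List.mem_cons, List.not_mem_nil, or_false] at hl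
    omega
  · intro l hl
    exact (h6 l hl).2

theorem zE_pow_five : zE ^ 5 = 1 := by
  funext x
  rw [zE_pow]
  change _ = x
  have : ((5 : ℕ) : ZMod 5) = 0 := by decide
  rw [this, zero_add]

theorem zE_isUnit : IsUnit zE := IsUnit.of_pow_eq_one zE_pow_five (by norm_num)

theorem act_isUnit (j : ℕ) (hj : j < 13) : IsUnit (act j) := by
  have key : ∀ d j, j < 13 → 13 - j ≤ d → IsUnit (act j) := by
    intro d
    induction d with
    | zero => intro j hj hd; omega
    | succ d ih =>
      intro j hj hd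
      obtain ⟨w, z, hw, _, h⟩ := rel_pow hj
      have h1 : (([j, j, j, j, j]).map act).prod = act j ^ 5 := by
        simp only [List.map_cons, List.map_nil, List.prod_cons, List.prod_nil, mul_one]
        simp only [pow_succ, pow_zero, one_mul, mul_assoc]
      rw [h1] at h
      have h2 : IsUnit (act j ^ 5) := by
        rw [h]
        refine IsUnit.mul ?_ (zE_isUnit.pow z)
        apply List.prod_isUnit
        intro u hu
        obtain ⟨l, hl, rfl⟩ := List.mem_map.1 hu
        exact ih l (hw l hl).2 (by have := (hw l hl).1; omega)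
      exact (isUnit_pow_iff (by norm_num)).1 h2
  exact key 13 j hj (by omega)

/-- the finite group containing the auxiliary extension -/
abbrev ΓΓ : Type := (Function.End XX)ˣ

open Classical in
/-- the generators as units -/
noncomputable def gu (i : ℕ) : ΓΓ := if h : IsUnit (act i) then h.unit else 1

noncomputable def zu : ΓΓ := zE_isUnit.unit

theorem gu_val {i : ℕ} (hi : i < 13) : (gu i : Function.End XX) = act i := by
  rw [gu, dif_pos (act_isUnit i hi)]; rfl

theorem zu_val : (zu : Function.End XX) = zE := rfl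

theorem prod_val {w : List ℕ} (hw : ∀ l ∈ w, l < 13) :
    (((w.map gu).prod : ΓΓ) : Function.End XX) = (w.map act).prod := by
  induction w with
  | nil => rfl
  | cons i w ih =>
    rw [List.map_cons, List.prod_cons, List.map_cons, List.prod_cons, Units.val_mul,
      gu_val (hw i (List.mem_cons_self ..)), ih fun l hl => hw l (List.mem_cons_of_mem i hl)]

theorem zu_comm {i : ℕ} (hi : i < 13) : zu * gu i = gu i * zu := by
  apply Units.ext
  rw [Units.val_mul, Units.val_mul, gu_val hi, zu_val]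
  funext x
  change zE (act i x) = act i (zE x)
  apply Prod.ext
  · rfl
  · change 1 + (((ent i x.1 % 8 : ℕ) : ZMod 5) + x.2) = ((ent i x.1 % 8 : ℕ) : ZMod 5) + (1 + x.2)
    ring

theorem hh_prod (w : List ℕ) : (w.map (hh 5 gu)).prod = ((w.map (gx 5)).prod, (w.map gu).prod) := by
  induction w with
  | nil => rfl
  | cons i w ih =>
    rw [List.map_cons, List.prod_cons, ih]
    rfl

theorem rels : Rels 5 13 gu zu where
  comm := by
    intro i j hij hj
    obtain ⟨w, z, hw, h1, h2⟩ := rel_comm hij hj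
    refine ⟨w, hw, (((i :: j :: w).map (hh 5 gu)).prod)⁻¹ * (([j, i]).map (hh 5 gu)).prod, ?_, ?_⟩
    · rw [hh_prod, hh_prod]
      refine ⟨h1, ⟨(z : ℤ), ?_⟩⟩
      change zu ^ (z : ℤ) = (((i :: j :: w).map gu).prod)⁻¹ * (([j, i]).map gu).prod
      rw [eq_inv_mul_iff_mul_eq]
      apply Units.ext
      rw [zpow_natCast, Units.val_mul, prod_val, prod_val, Units.val_pow_eq_pow_val, zu_val, h2]
      · intro l hl
        simp only [List.mem_cons, List.not_mem_nil, or_false] at hl
        omega
      · intro l hl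
        simp only [List.mem_cons] at hl
        rcases hl with hl | hl | hl
        · omega
        · omega
        · exact (hw l hl).2
    · simp only [List.map_cons, List.map_nil, List.prod_cons, List.prod_nil, mul_one]
      group
  pow := by
    intro j hj
    obtain ⟨w, z, hw, h1, h2⟩ := rel_pow hj
    refine ⟨w, hw, ((w.map (hh 5 gu)).prod)⁻¹ * (([j, j, j, j, j]).map (hh 5 gu)).prod, ?_, ?_⟩
    · rw [hh_prod, hh_prod]
      refine ⟨h1, ⟨(z : ℤ), ?_⟩⟩
      change zu ^ (z : ℤ) = ((w.map gu).prod)⁻¹ * (([j, j, j, j, j]).map gu).prod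
      rw [eq_inv_mul_iff_mul_eq]
      apply Units.ext
      rw [zpow_natCast, Units.val_mul, prod_val, prod_val, Units.val_pow_eq_pow_val, zu_val, h2]
      · intro l hl
        simp only [List.mem_cons, List.not_mem_nil, or_false] at hl
        omega
      · intro l hl
        exact (hw l hl).2
    · simp only [List.map_cons, List.map_nil, List.prod_cons, List.prod_nil, mul_one]
      rw [mul_inv_cancel_left]
      simp only [pow_succ, pow_zero, one_mul, mul_assoc]
  cent := fun i hi => zu_comm hi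

theorem chk_last : chkG TT [12, 1] [1, 12] 4 = true := by decide +kernel

theorem last_rel : gu 12 * gu 1 = gu 1 * gu 12 * zu ^ (4 : ℤ) := by
  have h := chkG_spec (l1 := [12, 1]) (l2 := [1, 12]) (z := 4)
    (by intro l hl; simp only [List.mem_cons, List.not_mem_nil, or_false] at hl; omega)
    (by intro l hl; simp only [List.mem_cons, List.not_mem_nil, or_false] at hl; omega) chk_last
  apply Units.ext
  have e : zu ^ (4 : ℤ) = zu ^ 4 := by
    rw [← zpow_natCast]; rfl
  rw [e, Units.val_mul, Units.val_mul, Units.val_mul, Units.val_pow_eq_pow_val, zu_val,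
    gu_val (by norm_num), gu_val (by norm_num)]
  simpa using h

theorem zu_pow : zu ^ 5 = 1 := by
  apply Units.ext
  rw [Units.val_pow_eq_pow_val, zu_val, zE_pow_five]; rfl

theorem zu_ne : zu ≠ 1 := by
  intro h
  have h1 : zE = 1 := by
    have := congrArg Units.val h
    exact this
  have h2 := congrFun h1 ((0 : Fin 625), (0 : ZMod 5))
  have h3 : (1 : ZMod 5) + 0 = 0 := congrArg Prod.snd h2
  revert h3
  decide

theorem main : ∃ (G : Type) (_ : Group G) (_ : TopologicalSpace G) (_ : IsTopologicalGroup G),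
      IsProP G 5 ∧ Infinite G ∧
      Nonempty ((G ⧸ gamma G (2 * 5 + 1)) ≃ₜ* (Nott 5 ⧸ gamma (Nott 5) (2 * 5 + 1))) ∧
      IsEmpty (G ≃ₜ* Nott 5) := by
  have : Finite (Function.End XX) := inferInstanceAs (Finite (XX → XX))
  have : Finite ΓΓ := Finite.of_injective (fun u : ΓΓ => (u : Function.End XX)) fun _ _ h => Units.ext h
  let _ : TopologicalSpace ΓΓ := ⊥
  have : DiscreteTopology ΓΓ := ⟨rfl⟩
  exact five_of_rels rels zu_pow zu_ne (b := 4) (by norm_num) last_rel


end Pool.Agent.Helper168.NottDefs
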