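import Pool.Agent.Helper168.NottDefs

set_option linter.unusedSectionVars false

namespace Pool.Agent.Helper168.NottDefs

open PowerSeries Topology
open scoped commutatorElement


namespace Nott
variable {p : ℕ}

theorem one_add_pow_expand {R : Type*} [CommRing R] (x : R) (k : ℕ) :
    ∃ w : R, (1 + x) ^ k = 1 + (k : R) * x + x ^ 2 * w := by
  induction k with
  | zero => exact ⟨0, by simp⟩
  | succ k ih =>
    obtain ⟨w, hw⟩ := ih
    refine ⟨w + k + x * w, ?_⟩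
    rw [pow_succ, hw]
    push_cast
    ring

theorem exists_form {j : ℕ} {g : Nott p} (hg : g ∈ lev p j) :
    ∃ v : PowerSeries (ZMod p), g.ser = X * (1 + X ^ j * v) ∧
      PowerSeries.coeff 0 v + (if j = 0 then 1 else 0) = PowerSeries.coeff (j + 1) g.ser := by
  obtain ⟨v, hv⟩ := hg
  have hv' : g.ser = X * (1 + X ^ j * v) := by
    have : g.ser = X ^ (j + 1) * v + X := by rw [← hv]; ring
    rw [this]; ring
  refine ⟨v, hv', ?_⟩
  rw [hv', mul_comm X, coeff_succ_mul_X]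
  rw [map_add, coeff_one, coeff_X_pow_mul']
  simp [add_comm]

theorem coeff_pow_form {j : ℕ} (hj : 1 ≤ j) {g : Nott p} (hg : g ∈ lev p j) (k n : ℕ)
    (hk : k ≤ n) (hn : n ≤ k + j) : PowerSeries.coeff n (g.ser ^ k) =
      (if n = k then 1 else 0) + (if n = k + j then (k : ZMod p) * PowerSeries.coeff (j + 1) g.ser
        else 0) := by
  obtain ⟨v, hv, hc⟩ := exists_form hg
  rw [if_neg (by omega), add_zero] at hc
  obtain ⟨w, hw⟩ := one_add_pow_expand (X ^ j * v) k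
  rw [← hc]
  conv_lhs => rw [hv]
  rw [mul_pow, hw]
  obtain ⟨m, rfl⟩ := Nat.exists_eq_add_of_le hk
  rw [add_comm k m, coeff_X_pow_mul]
  have hm : m ≤ j := by omega
  rw [map_add, map_add, coeff_one]
  have h3 : PowerSeries.coeff m ((X ^ j * v) ^ 2 * w) = 0 := by
    have : (X ^ j * v) ^ 2 * w = X ^ (2 * j) * (v ^ 2 * w) := by ring
    rw [this, coeff_X_pow_mul', if_neg (by omega)]
  rw [h3, add_zero]
  have h2 : PowerSeries.coeff m ((k : PowerSeries (ZMod p)) * (X ^ j * v)) =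
      if m = j then (k : ZMod p) * PowerSeries.coeff 0 v else 0 := by
    have : (k : PowerSeries (ZMod p)) * (X ^ j * v) = X ^ j * ((k : PowerSeries (ZMod p)) * v) := by
      ring
    rw [this, coeff_X_pow_mul']
    split_ifs with h1 h2 h2
    · subst h2
      rw [Nat.sub_self]
      rw [← map_natCast (C : ZMod p →+* PowerSeries (ZMod p)) k, coeff_C_mul]
    · omega
    · omega
    · rfl
  rw [h2]
  congr 1
  · simp
  · by_cases h : m = j
    · rw [if_pos h, if_pos (by omega)]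
    · rw [if_neg h, if_neg (by omega)]

theorem coeff_mul_lev {i j : ℕ} (hi : 1 ≤ i) (hj : 1 ≤ j) {f g : Nott p} (hf : f ∈ lev p i)
    (hg : g ∈ lev p j) (n : ℕ) (hn2 : 2 ≤ n) (hn : n ≤ i + j + 1) :
    PowerSeries.coeff n (f * g).ser = PowerSeries.coeff n f.ser + PowerSeries.coeff n g.ser +
      (if n = i + j + 1 then ((i + 1 : ℕ) : ZMod p) * PowerSeries.coeff (i + 1) f.ser *
        PowerSeries.coeff (j + 1) g.ser else 0) := by
  rw [coeff_mul_eq]
  have h0 : ∀ k ∈ Finset.range (n + 1), PowerSeries.coeff k f.ser * PowerSeries.coeff n (g.ser ^ k) =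
      (if k = 1 then PowerSeries.coeff n g.ser else 0) + (if k = n then PowerSeries.coeff n f.ser else 0)
      + (if k = i + 1 then (if n = i + j + 1 then ((i + 1 : ℕ) : ZMod p) *
        PowerSeries.coeff (i + 1) f.ser * PowerSeries.coeff (j + 1) g.ser else 0) else 0) := by
    intro k hk
    rw [Finset.mem_range] at hk
    match k with
    | 0 => rw [f.c0, zero_mul, if_neg (by omega), if_neg (by omega), if_neg (by omega)]; simp
    | 1 => rw [f.c1, one_mul, pow_one, if_pos rfl, if_neg (by omega), if_neg (by omega)]; simp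
    | k + 2 =>
      by_cases hki : k + 2 ≤ i
      · rw [mem_lev_iff.1 hf (k + 2) (by omega) hki, zero_mul, if_neg (by omega)]
        rw [if_neg (by omega : ¬ (k + 2 = i + 1))]
        by_cases hkn : k + 2 = n
        · rw [if_pos hkn, mem_lev_iff.1 hf n (by omega) (by omega)]; simp
        · rw [if_neg hkn]; simp
      · rw [coeff_pow_form hj hg (k + 2) n (by omega) (by omega)]
        rw [if_neg (by omega : ¬ (k + 2 = 1))]
        by_cases hkn : n = k + 2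
        · rw [if_pos hkn, if_neg (by omega : ¬ (n = k + 2 + j)), if_pos hkn.symm, hkn]
          by_cases h2 : k + 2 = i + 1
          · rw [if_pos h2, if_neg (by omega : ¬ (k + 2 = i + j + 1))]; simp
          · rw [if_neg h2]; simp
        · rw [if_neg hkn, if_neg (by omega : ¬ (k + 2 = n))]
          by_cases h1 : n = k + 2 + j
          · rw [if_pos h1, if_pos (by omega : k + 2 = i + 1), if_pos (by omega : n = i + j + 1)]
            have : k + 2 = i + 1 := by omega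
            rw [this]; ring
          · rw [if_neg h1]
            by_cases h2 : k + 2 = i + 1
            · rw [if_pos h2, if_neg (by omega)]; simp
            · rw [if_neg h2]; simp
  rw [Finset.sum_congr rfl h0, Finset.sum_add_distrib, Finset.sum_add_distrib]
  rw [Finset.sum_ite_eq', Finset.sum_ite_eq', Finset.sum_ite_eq']
  rw [if_pos (by rw [Finset.mem_range]; omega), if_pos (by rw [Finset.mem_range]; omega)]
  by_cases h : n = i + j + 1
  · rw [if_pos (by rw [Finset.mem_range]; omega)]; ring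
  · rw [if_neg h]; simp; ring

/-- the coefficient of `X^(i+1)` -/
noncomputable def lc (i : ℕ) (f : Nott p) : ZMod p := PowerSeries.coeff (i + 1) f.ser

theorem lc_mul {i : ℕ} (hi : 1 ≤ i) {f g : Nott p} (hf : f ∈ lev p i) (hg : g ∈ lev p i) :
    lc i (f * g) = lc i f + lc i g := by
  unfold lc
  rw [coeff_mul_lev hi hi hf hg (i + 1) (by omega) (by omega), if_neg (by omega), add_zero]

theorem lc_one {i : ℕ} (hi : 1 ≤ i) : lc i (1 : Nott p) = 0 := by
  unfold lc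
  rw [one_ser, coeff_X, if_neg (by omega)]

theorem mem_lev_succ {i : ℕ} (hi : 1 ≤ i) {f : Nott p} :
    f ∈ lev p (i + 1) ↔ f ∈ lev p i ∧ lc i f = 0 := by
  rw [mem_lev_iff, mem_lev_iff]
  constructor
  · intro h
    exact ⟨fun m h2 hm => h m h2 (by omega), h (i + 1) (by omega) le_rfl⟩
  · rintro ⟨h, h'⟩ m h2 hm
    rcases Nat.lt_or_ge m (i + 1) with h3 | h3
    · exact h m h2 (by omega)
    · have : m = i + 1 := by omega
      rw [this]; exact h'

/-- the leading coefficient as a homomorphism -/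
noncomputable def lcHom (p i : ℕ) (hi : 1 ≤ i) : lev p i →* Multiplicative (ZMod p) where
  toFun f := Multiplicative.ofAdd (lc i f.1)
  map_one' := by
    change Multiplicative.ofAdd (lc i (1 : Nott p)) = 1
    rw [lc_one hi]; rfl
  map_mul' := by
    intro f g
    change Multiplicative.ofAdd (lc i (f.1 * g.1)) = _
    rw [lc_mul hi f.2 g.2]; rfl

theorem lc_zpow {i : ℕ} (hi : 1 ≤ i) {f : Nott p} (hf : f ∈ lev p i) (a : ℤ) :
    lc i (f ^ a) = a * lc i f := by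
  have := map_zpow (lcHom p i hi) ⟨f, hf⟩ a
  have h2 := congrArg Multiplicative.toAdd this
  simp only [lcHom, MonoidHom.coe_mk, OneHom.coe_mk, toAdd_zpow, toAdd_ofAdd, zsmul_eq_mul] at h2
  simpa using h2

theorem lc_inv {i : ℕ} (hi : 1 ≤ i) {f : Nott p} (hf : f ∈ lev p i) :
    lc i (f⁻¹) = - lc i f := by
  have := lc_zpow hi hf (-1)
  simpa using this

/-- quotient of series agreeing to order `n` -/
theorem lc_div {n : ℕ} (hn : 1 ≤ n) {u v : Nott p}
    (h : ∀ m, 2 ≤ m → m ≤ n → PowerSeries.coeff m u.ser = PowerSeries.coeff m v.ser) :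
    u * v⁻¹ ∈ lev p n ∧ lc n (u * v⁻¹) = lc n u - lc n v := by
  have hc : Cong (n + 1) u.ser v.ser := by
    rw [Cong.iff]
    intro m hm
    match m with
    | 0 => rw [u.c0, v.c0]
    | 1 => rw [u.c1, v.c1]
    | m + 2 => exact h (m + 2) (by omega) (by omega)
  have h1 := cong_iff_mem'.1 hc
  refine ⟨h1, ?_⟩
  have hv : v ∈ lev p 1 := by rw [lev_one]; trivial
  have := coeff_mul_lev hn le_rfl h1 hv (n + 1) (by omega) (by omega)
  rw [inv_mul_cancel_right, if_neg (by omega), add_zero] at this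
  unfold lc
  rw [this]; ring

theorem lev_of_pos {f : Nott p} : f ∈ lev p 1 := by rw [lev_one]; trivial

theorem lc_commutator {i j : ℕ} (hi : 1 ≤ i) (hj : 1 ≤ j) {f g : Nott p} (hf : f ∈ lev p i)
    (hg : g ∈ lev p j) : ⁅f, g⁆ ∈ lev p (i + j) ∧
      lc (i + j) ⁅f, g⁆ = ((i : ZMod p) - (j : ZMod p)) * lc i f * lc j g := by
  have key : ∀ m, 2 ≤ m → m ≤ i + j + 1 → PowerSeries.coeff m (f * g).ser -
      PowerSeries.coeff m (g * f).ser = if m = i + j + 1 then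
        ((i : ZMod p) - (j : ZMod p)) * lc i f * lc j g else 0 := by
    intro m h2 hm
    rw [coeff_mul_lev hi hj hf hg m h2 hm, coeff_mul_lev hj hi hg hf m h2 (by omega)]
    by_cases h : m = i + j + 1
    · rw [if_pos h, if_pos (by omega), if_pos h]
      unfold lc
      push_cast
      ring
    · rw [if_neg h, if_neg (by omega), if_neg h]; ring
  have h1 : ⁅f, g⁆ = (f * g) * (g * f)⁻¹ := by
    rw [commutatorElement_def]; group
  have h2 := lc_div (n := i + j) (by omega) (u := f * g) (v := g * f) (by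
    intro m h2 hm
    have := key m h2 (by omega)
    rw [if_neg (by omega)] at this
    exact sub_eq_zero.1 this)
  rw [← h1] at h2
  refine ⟨h2.1, ?_⟩
  rw [h2.2]
  have := key (i + j + 1) (by omega) le_rfl
  rw [if_pos rfl] at this
  exact this

/-- `X + X^(n+1)` -/
noncomputable def gen (p n : ℕ) (hn : 1 ≤ n) : Nott p :=
  ⟨X + X ^ (n + 1), by simp, by
    rw [map_add, coeff_X_pow, if_neg (by omega)]; simp⟩

theorem gen_mem (n : ℕ) (hn : 1 ≤ n) : gen p n hn ∈ lev p n := by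
  rw [mem_lev_iff]
  intro m h2 hm
  change PowerSeries.coeff m (X + X ^ (n + 1)) = 0
  rw [map_add, coeff_X, coeff_X_pow, if_neg (by omega), if_neg (by omega), add_zero]

theorem gen_lc (n : ℕ) (hn : 1 ≤ n) : lc n (gen p n hn) = 1 := by
  change PowerSeries.coeff (n + 1) (X + X ^ (n + 1)) = 1
  rw [map_add, coeff_X, coeff_X_pow, if_neg (by omega), if_pos rfl, zero_add]

/-- a nontrivial series has a depth -/
theorem exists_depth {f : Nott p} (hf : f ≠ 1) : ∃ n, 1 ≤ n ∧ f ∈ lev p n ∧ lc n f ≠ 0 := by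
  by_contra hcon
  push Not at hcon
  apply hf
  have : ∀ n, 1 ≤ n → f ∈ lev p n := by
    intro n hn
    induction n, hn using Nat.le_induction with
    | base => exact lev_of_pos
    | succ n hn ih => exact (mem_lev_succ hn).2 ⟨ih, hcon n hn ih⟩
  apply Nott.ext
  ext m
  rw [one_ser]
  exact Cong.iff.1 (mem_lev.1 (this (m + 1) (by omega))) m (by omega)

theorem center_trivial [Fact p.Prime] {f : Nott p} (hf : ∀ g, f * g = g * f) : f = 1 := by
  by_contra hne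
  obtain ⟨n, hn, hfn, hlc⟩ := exists_depth hne
  have key : ∀ j : ℕ, 1 ≤ j → ((n : ZMod p) - (j : ZMod p)) = 0 := by
    intro j hj
    have h := (lc_commutator hn hj hfn (gen_mem (p := p) j hj)).2
    have hc : ⁅f, gen p j hj⁆ = 1 := commutatorElement_eq_one_iff_mul_comm.2 (hf _)
    rw [hc, lc_one (by omega), gen_lc, mul_one] at h
    rcases mul_eq_zero.1 h.symm with h | h
    · exact h
    · exact absurd h hlc
  have h1 := key 1 le_rfl
  have h2 := key 2 (by omega)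
  have : (1 : ZMod p) = 0 := by
    have h3 : ((n : ZMod p) - ((1 : ℕ) : ZMod p)) - ((n : ZMod p) - ((2 : ℕ) : ZMod p)) = 0 := by
      rw [h1, h2, sub_zero]
    push_cast at h3
    linear_combination h3
  exact one_ne_zero this

end Nott

namespace Nott
variable {p : ℕ}

theorem isClosedEmbedding_cf [NeZero p] :
    @Topology.IsClosedEmbedding (Nott p) (ℕ → ZMod p) _
      (@Pi.topologicalSpace ℕ (fun _ => ZMod p) (fun _ => ⊥)) cf := by
  let _ : TopologicalSpace (ZMod p) := ⊥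
  have : DiscreteTopology (ZMod p) := ⟨rfl⟩
  refine ⟨⟨⟨rfl⟩, cf_injective⟩, ?_⟩
  have : Set.range (cf (p := p)) = {a : ℕ → ZMod p | a 0 = 0 ∧ a 1 = 1} := by
    ext a
    constructor
    · rintro ⟨f, rfl⟩
      exact ⟨f.c0, f.c1⟩
    · rintro ⟨h0, h1⟩
      refine ⟨⟨PowerSeries.mk a, by simpa using h0, by simpa using h1⟩, ?_⟩
      funext n
      simp [cf]
  rw [this]
  exact (isClosed_eq (continuous_apply 0) continuous_const).inter
    (isClosed_eq (continuous_apply 1) continuous_const)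

instance [NeZero p] : CompactSpace (Nott p) := by
  let _ : TopologicalSpace (ZMod p) := ⊥
  have : DiscreteTopology (ZMod p) := ⟨rfl⟩
  have : Finite (ZMod p) := inferInstance
  exact isClosedEmbedding_cf.compactSpace

instance : T2Space (Nott p) := by
  let _ : TopologicalSpace (ZMod p) := ⊥
  have : DiscreteTopology (ZMod p) := ⟨rfl⟩
  have : @Topology.IsEmbedding (Nott p) (ℕ → ZMod p) _ _ cf := ⟨⟨rfl⟩, cf_injective⟩
  exact this.t2Space

instance : TotallyDisconnectedSpace (Nott p) := by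
  let _ : TopologicalSpace (ZMod p) := ⊥
  have : DiscreteTopology (ZMod p) := ⟨rfl⟩
  have : @Topology.IsEmbedding (Nott p) (ℕ → ZMod p) _ _ cf := ⟨⟨rfl⟩, cf_injective⟩
  exact this.isTotallyDisconnected_range.1 (isTotallyDisconnected_of_totallyDisconnectedSpace _)

theorem exists_mem_lev_of_nhds {f : Nott p} {U : Set (Nott p)} (hU : U ∈ 𝓝 f) :
    ∃ n, ∀ g, f⁻¹ * g ∈ lev p n → g ∈ U := by
  have : (fun h => f * h) ⁻¹' U ∈ 𝓝 (1 : Nott p) := by
    apply (continuous_const.mul continuous_id).continuousAt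
    simpa using hU
  obtain ⟨n, hn⟩ := exists_lev_subset this
  refine ⟨n, fun g hg => ?_⟩
  have := hn hg
  simpa using this

/-- A closed subgroup with elements of each depth at least `N` contains `J_N`. -/
theorem lev_le_of_depths [Fact p.Prime] {S : Subgroup (Nott p)} (hS : IsClosed (S : Set (Nott p)))
    {N : ℕ} (hN : 1 ≤ N) (h : ∀ n, N ≤ n → ∃ s ∈ S, s ∈ lev p n ∧ lc n s ≠ 0) : lev p N ≤ S := by
  intro f hf
  have key : ∀ m, N ≤ m → ∃ s ∈ S, s⁻¹ * f ∈ lev p m := by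
    intro m hm
    induction m, hm using Nat.le_induction with
    | base => exact ⟨1, one_mem _, by simpa using hf⟩
    | succ m hm ih =>
      obtain ⟨s, hs, hsm⟩ := ih
      obtain ⟨u, hu, hum, hlu⟩ := h m hm
      have hm1 : 1 ≤ m := by omega
      set c := lc m (s⁻¹ * f) with hc
      set k : ℤ := ((((c / lc m u : ZMod p)).val : ℕ) : ℤ) with hk
      refine ⟨s * u ^ k, mul_mem hs (zpow_mem hu k), ?_⟩
      rw [mem_lev_succ hm1]
      have e : (s * u ^ k)⁻¹ * f = (u ^ k)⁻¹ * (s⁻¹ * f) := by group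
      have huk : (u ^ k)⁻¹ ∈ lev p m := inv_mem (zpow_mem hum k)
      rw [e]
      refine ⟨mul_mem huk hsm, ?_⟩
      rw [lc_mul hm1 huk hsm, lc_inv hm1 (zpow_mem hum k), lc_zpow hm1 hum, ← hc]
      have : ((k : ℤ) : ZMod p) = c / lc m u := by
        rw [hk]; simp
      rw [this]
      field_simp
      ring
  have : f ∈ closure (S : Set (Nott p)) := by
    rw [mem_closure_iff_nhds]
    intro U hU
    obtain ⟨n, hn⟩ := exists_mem_lev_of_nhds hU
    obtain ⟨s, hs, hsm⟩ := key (max n N) (le_max_right _ _)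
    refine ⟨s, hn s ?_, hs⟩
    have h1 : (s⁻¹ * f)⁻¹ ∈ lev p n := inv_mem (lev_mono (le_max_left n N) hsm)
    simpa using h1
  rwa [hS.closure_eq] at this

theorem pow_mem_lev [Fact p.Prime] {i : ℕ} (hi : 1 ≤ i) {f : Nott p} (hf : f ∈ lev p i) :
    f ^ p ∈ lev p (i + 1) := by
  rw [mem_lev_succ hi]
  refine ⟨pow_mem hf p, ?_⟩
  have := lc_zpow hi hf (p : ℤ)
  rw [zpow_natCast] at this
  rw [this]; simp

theorem pow_pow_mem_lev [Fact p.Prime] (f : Nott p) (k : ℕ) : f ^ p ^ k ∈ lev p (k + 1) := by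
  induction k with
  | zero => exact lev_of_pos
  | succ k ih =>
    rw [pow_succ, pow_mul]
    exact pow_mem_lev (by omega) ih

instance [Fact p.Prime] : Infinite (Nott p) := by
  apply Infinite.of_injective (fun n : ℕ => gen p (n + 1) (by omega))
  intro m n h
  by_contra hne
  wlog hlt : m < n generalizing m n
  · exact this h.symm (fun h => hne h.symm) (by omega)
  have h1 := gen_lc (p := p) (m + 1) (by omega)
  have h2 := gen_mem (p := p) (n + 1) (by omega)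
  dsimp only at h
  rw [h] at h1
  have h3 : gen p (n + 1) (by omega) ∈ lev p (m + 1 + 1) := lev_mono (by omega) h2
  rw [mem_lev_succ (by omega), h1] at h3
  exact one_ne_zero h3.2

end Nott

section General

variable {G : Type*} [Group G] [TopologicalSpace G] [IsTopologicalGroup G]

theorem gamma_succ {n : ℕ} (hn : 1 ≤ n) :
    gamma G (n + 1) = (⁅gamma G n, (⊤ : Subgroup G)⁆).topologicalClosure := by
  obtain ⟨m, rfl⟩ := Nat.exists_eq_add_of_le hn
  rw [show 1 + m + 1 = m + 2 by ring, gamma, show m + 1 = 1 + m by ring]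

theorem gamma_one : gamma G 1 = ⊤ := rfl

theorem gamma_isClosed (n : ℕ) : IsClosed (gamma G n : Set G) := by
  match n with
  | 0 => exact isClosed_univ
  | 1 => exact isClosed_univ
  | n + 2 => exact Subgroup.isClosed_topologicalClosure _

theorem comm_mem_gamma {n : ℕ} (hn : 1 ≤ n) {x : G} (hx : x ∈ gamma G n) (g : G) :
    ⁅x, g⁆ ∈ gamma G (n + 1) := by
  rw [gamma_succ hn]
  exact Subgroup.le_topologicalClosure _ (Subgroup.commutator_mem_commutator hx trivial)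

theorem gamma_succ_le {n : ℕ} (hn : 1 ≤ n) : gamma G (n + 1) ≤ gamma G n := by
  rw [gamma_succ hn]
  exact Subgroup.topologicalClosure_minimal _ (Subgroup.commutator_le_left _ _) (gamma_isClosed n)

variable {H : Type*} [Group H] [TopologicalSpace H] [IsTopologicalGroup H]

theorem map_topologicalClosure [CompactSpace G] [T2Space H] (π : G →* H) (hπ : Continuous π)
    (K : Subgroup G) : (K.topologicalClosure).map π = (K.map π).topologicalClosure := by
  apply SetLike.coe_injective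
  rw [Subgroup.coe_map, Subgroup.topologicalClosure_coe, Subgroup.topologicalClosure_coe,
    Subgroup.coe_map]
  exact (hπ.isClosedMap.closure_image_eq_of_continuous hπ _).symm

theorem map_gamma [CompactSpace G] [T2Space H] (π : G →* H) (hπ : Continuous π)
    (hs : Function.Surjective π) (n : ℕ) : (gamma G n).map π = gamma H n := by
  induction n using Nat.strong_induction_on with
  | _ n ih =>
    match n with
    | 0 => exact Subgroup.map_top_of_surjective π hs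
    | 1 => exact Subgroup.map_top_of_surjective π hs
    | n + 2 =>
      rw [gamma, gamma, map_topologicalClosure π hπ, Subgroup.map_commutator,
        ih (n + 1) (by omega), Subgroup.map_top_of_surjective π hs]

theorem exists_quotient_iso [CompactSpace G] [T2Space H] (π : G →* H) (hπ : Continuous π)
    (hs : Function.Surjective π) (n : ℕ) (hk : π.ker ≤ gamma G n) :
    Nonempty ((G ⧸ gamma G n) ≃ₜ* (H ⧸ gamma H n)) := by
  have hmap := map_gamma π hπ hs n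
  have hle : gamma G n ≤ (gamma H n).comap π := by
    rw [← hmap]; exact Subgroup.le_comap_map _ _
  let φ : (G ⧸ gamma G n) →* (H ⧸ gamma H n) := QuotientGroup.map _ _ π hle
  have hφs : Function.Surjective φ := by
    intro y
    obtain ⟨h, rfl⟩ := QuotientGroup.mk_surjective y
    obtain ⟨g, rfl⟩ := hs h
    exact ⟨QuotientGroup.mk g, rfl⟩
  have hφi : Function.Injective φ := by
    rw [injective_iff_map_eq_one]
    intro x hx
    obtain ⟨g, rfl⟩ := QuotientGroup.mk_surjective x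
    rw [QuotientGroup.eq_one_iff]
    have h1 : (QuotientGroup.mk (π g) : H ⧸ gamma H n) = 1 := hx
    rw [QuotientGroup.eq_one_iff, ← hmap] at h1
    obtain ⟨g', hg', he⟩ := h1
    have h2 : g'⁻¹ * g ∈ π.ker := by
      rw [MonoidHom.mem_ker, map_mul, map_inv, he, inv_mul_cancel]
    have h3 := mul_mem hg' (hk h2)
    rwa [mul_inv_cancel_left] at h3
  have hφc : Continuous φ := by
    rw [(QuotientGroup.isQuotientMap_mk (N := gamma G n)).continuous_iff]
    exact QuotientGroup.continuous_mk.comp hπ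
  have hcl : IsClosed (gamma H n : Set H) := gamma_isClosed n
  have : T3Space (H ⧸ gamma H n) := QuotientGroup.instT3Space (gamma H n)
  let e : (G ⧸ gamma G n) ≃* (H ⧸ gamma H n) := MulEquiv.ofBijective φ ⟨hφi, hφs⟩
  have hec : Continuous e := hφc
  exact ⟨{ e with
    continuous_toFun := hec
    continuous_invFun := (Continuous.homeoOfEquivCompactToT2 (f := e.toEquiv) hec).continuous_invFun }⟩

end General

namespace Nott

variable {p : ℕ}

theorem isProP [Fact p.Prime] : IsProP (Nott p) p := by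
  refine ⟨inferInstance, inferInstance, inferInstance, ?_⟩
  intro N _ hN
  obtain ⟨n, hn⟩ := exists_lev_subset (hN.mem_nhds (one_mem N))
  intro x
  obtain ⟨f, rfl⟩ := QuotientGroup.mk_surjective x
  refine ⟨n, ?_⟩
  rw [← QuotientGroup.mk_pow, QuotientGroup.eq_one_iff]
  exact hn (lev_mono (Nat.le_succ n) (pow_pow_mem_lev f n))

end Nott

section Chain

variable {p : ℕ} [Fact p.Prime] {Γ : Type} [Group Γ]

/-- `X + X^(i+2)`, of depth `i + 1` -/
noncomputable def gx (p i : ℕ) : Nott p := Nott.gen p (i + 1) (by omega)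

/-- the pairs -/
noncomputable def hh (p : ℕ) (γ : ℕ → Γ) (i : ℕ) : Nott p × Γ := (gx p i, γ i)

/-- the bottom of the chain -/
noncomputable def KK (p N : ℕ) (ζ : Γ) : Subgroup (Nott p × Γ) :=
  (Nott.lev p (N + 1)).prod (Subgroup.zpowers ζ)

/-- the chain of subgroups -/
noncomputable def HH (p N : ℕ) (γ : ℕ → Γ) (ζ : Γ) (i : ℕ) : Subgroup (Nott p × Γ) :=
  Subgroup.closure ({u | ∃ l, i ≤ l ∧ l < N ∧ u = hh p γ l} ∪ (KK p N ζ : Set (Nott p × Γ)))

/-- the relations needed -/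
structure Rels (p N : ℕ) (γ : ℕ → Γ) (ζ : Γ) : Prop where
  comm : ∀ i j, i < j → j < N → ∃ w : List ℕ, (∀ l ∈ w, i + 1 ≤ l ∧ l < N) ∧
    ∃ k ∈ KK p N ζ, hh p γ j * hh p γ i = hh p γ i * hh p γ j * (w.map (hh p γ)).prod * k
  pow : ∀ i, i < N → ∃ w : List ℕ, (∀ l ∈ w, i + 1 ≤ l ∧ l < N) ∧
    ∃ k ∈ KK p N ζ, hh p γ i ^ p = (w.map (hh p γ)).prod * k
  cent : ∀ i, i < N → ζ * γ i = γ i * ζ

variable {N : ℕ} {γ : ℕ → Γ} {ζ : Γ}

theorem gx_mem (i : ℕ) : gx p i ∈ Nott.lev p (i + 1) := Nott.gen_mem _ _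

theorem gx_lc (i : ℕ) : Nott.lc (i + 1) (gx p i) = 1 := Nott.gen_lc _ _

theorem hh_mem {i l : ℕ} (h : i ≤ l) (hl : l < N) : hh p γ l ∈ HH p N γ ζ i :=
  Subgroup.subset_closure (Or.inl ⟨l, h, hl, rfl⟩)

theorem KK_le (i : ℕ) : KK p N ζ ≤ HH p N γ ζ i := fun _ hk =>
  Subgroup.subset_closure (Or.inr hk)

theorem HH_anti {i j : ℕ} (h : i ≤ j) : HH p N γ ζ j ≤ HH p N γ ζ i := by
  apply Subgroup.closure_mono
  rintro u (⟨l, hl, hlN, rfl⟩ | hu)
  · exact Or.inl ⟨l, by omega, hlN, rfl⟩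
  · exact Or.inr hu

theorem HH_fst {i : ℕ} (hi : i ≤ N) {u : Nott p × Γ} (hu : u ∈ HH p N γ ζ i) :
    u.1 ∈ Nott.lev p (i + 1) := by
  have : HH p N γ ζ i ≤ (Nott.lev p (i + 1)).comap (MonoidHom.fst _ _) := by
    rw [HH, Subgroup.closure_le]
    rintro u (⟨l, hl, hlN, rfl⟩ | hu)
    · exact Nott.lev_mono (by omega) (gx_mem (p := p) l)
    · exact Nott.lev_mono (by omega) hu.1
  exact this hu

theorem prod_mem_HH {i : ℕ} {w : List ℕ} (hw : ∀ l ∈ w, i ≤ l ∧ l < N) :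
    (w.map (hh p γ)).prod ∈ HH p N γ ζ i := by
  apply Subgroup.list_prod_mem
  intro u hu
  obtain ⟨l, hl, rfl⟩ := List.mem_map.1 hu
  exact hh_mem (hw l hl).1 (hw l hl).2

theorem KK_conj (R : Rels p N γ ζ) {i : ℕ} (hi : i < N) {k : Nott p × Γ} (hk : k ∈ KK p N ζ) :
    (hh p γ i)⁻¹ * k * hh p γ i ∈ KK p N ζ := by
  refine ⟨?_, ?_⟩
  · have := (Nott.lev_normal (p := p) (N + 1)).conj_mem k.1 hk.1 (gx p i)⁻¹
    rw [inv_inv] at this
    exact this
  · obtain ⟨c, hc⟩ := hk.2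
    refine ⟨c, ?_⟩
    change ζ ^ c = (γ i)⁻¹ * k.2 * γ i
    have hc' : ζ ^ c = k.2 := hc
    rw [← hc', mul_assoc]
    have : Commute ζ (γ i) := R.cent i hi
    rw [(this.zpow_left c).eq, inv_mul_cancel_left]

theorem conj_mem (R : Rels p N γ ζ) {i : ℕ} (hi : i < N) {v : Nott p × Γ}
    (hv : v ∈ HH p N γ ζ (i + 1)) : (hh p γ i)⁻¹ * v * hh p γ i ∈ HH p N γ ζ (i + 1) := by
  have : HH p N γ ζ (i + 1) ≤ (HH p N γ ζ (i + 1)).comap
      (MulAut.conj (hh p γ i)⁻¹).toMonoidHom := by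
    conv_lhs => rw [HH]
    rw [Subgroup.closure_le]
    rintro u (⟨l, hl, hlN, rfl⟩ | hu)
    · change (hh p γ i)⁻¹ * hh p γ l * ((hh p γ i)⁻¹)⁻¹ ∈ HH p N γ ζ (i + 1)
      rw [inv_inv]
      obtain ⟨w, hw, k, hk, e⟩ := R.comm i l (by omega) hlN
      have : (hh p γ i)⁻¹ * hh p γ l * hh p γ i = hh p γ l * (w.map (hh p γ)).prod * k := by
        rw [mul_assoc, e]; group
      rw [this]
      exact mul_mem (mul_mem (hh_mem hl hlN) (prod_mem_HH hw)) (KK_le _ hk)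
    · change (hh p γ i)⁻¹ * u * ((hh p γ i)⁻¹)⁻¹ ∈ HH p N γ ζ (i + 1)
      rw [inv_inv]
      exact KK_le _ (KK_conj R hi hu)
  have h2 := this hv
  change (hh p γ i)⁻¹ * v * ((hh p γ i)⁻¹)⁻¹ ∈ HH p N γ ζ (i + 1) at h2
  rwa [inv_inv] at h2

theorem conj_npow_mem (R : Rels p N γ ζ) {i : ℕ} (hi : i < N) (a : ℕ) {v : Nott p × Γ}
    (hv : v ∈ HH p N γ ζ (i + 1)) :
    (hh p γ i ^ a)⁻¹ * v * hh p γ i ^ a ∈ HH p N γ ζ (i + 1) := by
  induction a with
  | zero => simpa using hv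
  | succ a ih =>
    have := conj_mem R hi ih
    have e : (hh p γ i ^ (a + 1))⁻¹ * v * hh p γ i ^ (a + 1) =
        (hh p γ i)⁻¹ * ((hh p γ i ^ a)⁻¹ * v * hh p γ i ^ a) * hh p γ i := by
      rw [pow_succ]; group
    rw [e]; exact this

theorem pow_mem_HH (R : Rels p N γ ζ) {i : ℕ} (hi : i < N) :
    hh p γ i ^ p ∈ HH p N γ ζ (i + 1) := by
  obtain ⟨w, hw, k, hk, e⟩ := R.pow i hi
  rw [e]
  exact mul_mem (prod_mem_HH hw) (KK_le _ hk)

theorem conj_mem' (R : Rels p N γ ζ) {i : ℕ} (hi : i < N) {v : Nott p × Γ}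
    (hv : v ∈ HH p N γ ζ (i + 1)) : hh p γ i * v * (hh p γ i)⁻¹ ∈ HH p N γ ζ (i + 1) := by
  have hp : 1 ≤ p := (Fact.out : p.Prime).one_lt.le
  have h1 := conj_npow_mem R hi (p - 1) hv
  have h2 := pow_mem_HH R hi
  have h3 := mul_mem (mul_mem h2 h1) (inv_mem h2)
  have e : hh p γ i ^ p = hh p γ i * hh p γ i ^ (p - 1) := by
    rw [← pow_succ', Nat.sub_add_cancel hp]
  have e2 : hh p γ i ^ p * ((hh p γ i ^ (p - 1))⁻¹ * v * hh p γ i ^ (p - 1)) * (hh p γ i ^ p)⁻¹ =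
      hh p γ i * v * (hh p γ i)⁻¹ := by
    rw [e]; group
  rwa [e2] at h3

theorem conj_zpow_mem (R : Rels p N γ ζ) {i : ℕ} (hi : i < N) (a : ℤ) {v : Nott p × Γ}
    (hv : v ∈ HH p N γ ζ (i + 1)) :
    (hh p γ i ^ a)⁻¹ * v * hh p γ i ^ a ∈ HH p N γ ζ (i + 1) := by
  induction a using Int.induction_on with
  | zero => simpa using hv
  | succ a ih =>
    have := conj_mem R hi ih
    have e : (hh p γ i ^ ((a : ℤ) + 1))⁻¹ * v * hh p γ i ^ ((a : ℤ) + 1) =
        (hh p γ i)⁻¹ * ((hh p γ i ^ (a : ℤ))⁻¹ * v * hh p γ i ^ (a : ℤ)) * hh p γ i := by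
      rw [zpow_add_one]; group
    rw [e]; exact this
  | pred a ih =>
    have := conj_mem' R hi ih
    have e : (hh p γ i ^ (-(a : ℤ) - 1))⁻¹ * v * hh p γ i ^ (-(a : ℤ) - 1) =
        (hh p γ i) * ((hh p γ i ^ (-(a : ℤ)))⁻¹ * v * hh p γ i ^ (-(a : ℤ))) * (hh p γ i)⁻¹ := by
      rw [zpow_sub_one]; group
    rw [e]; exact this

theorem decomp (R : Rels p N γ ζ) {i : ℕ} (hi : i < N) {u : Nott p × Γ}
    (hu : u ∈ HH p N γ ζ i) : ∃ a : ℤ, ∃ v ∈ HH p N γ ζ (i + 1), u = hh p γ i ^ a * v := by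
  unfold HH at hu
  induction hu using Subgroup.closure_induction with
  | mem u hu =>
    rcases hu with ⟨l, hl, hlN, rfl⟩ | hu
    · rcases Nat.eq_or_lt_of_le hl with h | h
      · subst h; exact ⟨1, 1, one_mem _, by simp⟩
      · exact ⟨0, _, hh_mem h hlN, by simp⟩
    · exact ⟨0, _, KK_le _ hu, by simp⟩
  | one => exact ⟨0, 1, one_mem _, by simp⟩
  | mul u u' _ _ ih ih' =>
    obtain ⟨a, v, hv, rfl⟩ := ih
    obtain ⟨b, v', hv', rfl⟩ := ih'
    refine ⟨a + b, _, mul_mem (conj_zpow_mem R hi b hv) hv', ?_⟩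
    rw [zpow_add]; group
  | inv u _ ih =>
    obtain ⟨a, v, hv, rfl⟩ := ih
    refine ⟨-a, _, conj_zpow_mem R hi (-a) (inv_mem hv), ?_⟩
    group

theorem peel (R : Rels p N γ ζ) {i : ℕ} (hi : i < N) {u : Nott p × Γ}
    (hu : u ∈ HH p N γ ζ i) (hu1 : u.1 ∈ Nott.lev p (i + 2)) : u ∈ HH p N γ ζ (i + 1) := by
  obtain ⟨a, v, hv, rfl⟩ := decomp R hi hu
  have h1 : v.1 ∈ Nott.lev p (i + 1 + 1) := HH_fst (by omega) hv
  have h2 : (gx p i) ^ a ∈ Nott.lev p (i + 2) := by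
    have e : (hh p γ i ^ a * v).1 = gx p i ^ a * v.1 := rfl
    rw [e] at hu1
    have := mul_mem hu1 (inv_mem h1)
    rwa [mul_inv_cancel_right] at this
  rw [Nott.mem_lev_succ (by omega)] at h2
  have h3 := h2.2
  rw [Nott.lc_zpow (by omega) (gx_mem (p := p) i), gx_lc, mul_one,
    ZMod.intCast_zmod_eq_zero_iff_dvd] at h3
  obtain ⟨b, rfl⟩ := h3
  refine mul_mem ?_ hv
  rw [zpow_mul, zpow_natCast]
  exact zpow_mem (pow_mem_HH R hi) b

theorem peel_to (R : Rels p N γ ζ) {m : ℕ} (hm : m ≤ N) {u : Nott p × Γ}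
    (hu : u ∈ HH p N γ ζ 0) (hu1 : u.1 ∈ Nott.lev p (m + 1)) : u ∈ HH p N γ ζ m := by
  induction m with
  | zero => exact hu
  | succ m ih =>
    exact peel R (by omega) (ih (by omega) (Nott.lev_mono (by omega) hu1)) hu1

theorem HH_bot : HH p N γ ζ N = KK p N ζ := by
  apply le_antisymm
  · rw [HH, Subgroup.closure_le]
    rintro u (⟨l, hl, hlN, rfl⟩ | hu)
    · omega
    · exact hu
  · exact KK_le _

theorem exists_lift (f : Nott p) : ∃ u ∈ HH p N γ ζ 0, u.1 = f := by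
  have key : ∀ m, m ≤ N → ∃ u ∈ HH p N γ ζ 0, u.1⁻¹ * f ∈ Nott.lev p (m + 1) := by
    intro m hm
    induction m with
    | zero => exact ⟨1, one_mem _, Nott.lev_of_pos⟩
    | succ m ih =>
      obtain ⟨u, hu, hum⟩ := ih (by omega)
      set c : ZMod p := Nott.lc (m + 1) (u.1⁻¹ * f) with hc
      set k : ℤ := ((c.val : ℕ) : ℤ) with hk
      refine ⟨u * hh p γ m ^ k, mul_mem hu (zpow_mem (hh_mem (Nat.zero_le _) (by omega)) k), ?_⟩
      have e : (u * hh p γ m ^ k).1⁻¹ * f = (gx p m ^ k)⁻¹ * (u.1⁻¹ * f) := by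
        change (u.1 * gx p m ^ k)⁻¹ * f = _
        group
      have hg : gx p m ^ k ∈ Nott.lev p (m + 1) := zpow_mem (gx_mem m) k
      rw [e, Nott.mem_lev_succ (by omega)]
      refine ⟨mul_mem (inv_mem hg) hum, ?_⟩
      rw [Nott.lc_mul (by omega) (inv_mem hg) hum, Nott.lc_inv (by omega) hg,
        Nott.lc_zpow (by omega) (gx_mem (p := p) m), gx_lc, ← hc]
      have : ((k : ℤ) : ZMod p) = c := by
        rw [hk]; simp
      rw [this]; ring
  obtain ⟨u, hu, hum⟩ := key N le_rfl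
  have hk : ((u.1⁻¹ * f, 1) : Nott p × Γ) ∈ KK p N ζ := ⟨hum, one_mem _⟩
  refine ⟨u * (u.1⁻¹ * f, 1), mul_mem hu (KK_le _ hk), ?_⟩
  change u.1 * (u.1⁻¹ * f) = f
  rw [mul_inv_cancel_left]

theorem snd_of_deep (R : Rels p N γ ζ) {u : Nott p × Γ} (hu : u ∈ HH p N γ ζ 0)
    (hu1 : u.1 ∈ Nott.lev p (N + 1)) : u.2 ∈ Subgroup.zpowers ζ := by
  have := peel_to R le_rfl hu hu1
  rw [HH_bot] at this
  exact this.2

end Chain

section Assembly

variable {Γ : Type} [Group Γ] [Finite Γ] [TopologicalSpace Γ] [DiscreteTopology Γ]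
variable {p N : ℕ} [Fact p.Prime] {γ : ℕ → Γ} {ζ : Γ}

theorem KK_isOpen : IsOpen (KK p N ζ : Set (Nott p × Γ)) := by
  have : (KK p N ζ : Set (Nott p × Γ)) =
      (Nott.lev p (N + 1) : Set (Nott p)) ×ˢ (Subgroup.zpowers ζ : Set Γ) := rfl
  rw [this]
  exact (Nott.isOpen_lev _).prod (isOpen_discrete _)

theorem HH_isOpen (i : ℕ) : IsOpen (HH p N γ ζ i : Set (Nott p × Γ)) :=
  Subgroup.isOpen_mono (KK_le i) KK_isOpen

theorem HH_isClosed (i : ℕ) : IsClosed (HH p N γ ζ i : Set (Nott p × Γ)) :=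
  Subgroup.isClosed_of_isOpen _ (HH_isOpen i)

instance : CompactSpace (HH p N γ ζ 0) :=
  isCompact_iff_compactSpace.1 (HH_isClosed (p := p) (N := N) (γ := γ) (ζ := ζ) 0).isCompact

theorem cent_all (R : Rels p N γ ζ) {u : Nott p × Γ} (hu : u ∈ HH p N γ ζ 0) :
    ζ * u.2 = u.2 * ζ := by
  have : HH p N γ ζ 0 ≤ (Subgroup.centralizer {ζ}).comap (MonoidHom.snd (Nott p) Γ) := by
    rw [HH, Subgroup.closure_le]
    rintro u (⟨l, hl, hlN, rfl⟩ | hu)
    · change γ l ∈ Subgroup.centralizer {ζ}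
      rw [Subgroup.mem_centralizer_singleton_iff]
      exact (R.cent l hlN).symm
    · change u.2 ∈ Subgroup.centralizer {ζ}
      obtain ⟨c, hc⟩ := hu.2
      have hc' : ζ ^ c = u.2 := hc
      rw [Subgroup.mem_centralizer_singleton_iff, ← hc']
      exact ((Commute.refl ζ).zpow_left c).eq
  have h := this hu
  change u.2 ∈ Subgroup.centralizer {ζ} at h
  rw [Subgroup.mem_centralizer_singleton_iff] at h
  exact h.symm

theorem HH_isProP (R : Rels p N γ ζ) (hζ : ζ ^ p = 1) : IsProP (HH p N γ ζ 0) p := by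
  refine ⟨inferInstance, inferInstance, inferInstance, ?_⟩
  intro M _ hM
  have h1 : (M : Set (HH p N γ ζ 0)) ∈ 𝓝 (1 : HH p N γ ζ 0) := hM.mem_nhds (one_mem M)
  rw [nhds_subtype_eq_comap, Filter.mem_comap] at h1
  obtain ⟨U, hU, hUM⟩ := h1
  change U ∈ 𝓝 ((1, 1) : Nott p × Γ) at hU
  rw [nhds_prod_eq, Filter.mem_prod_iff] at hU
  obtain ⟨V, hV, W, hW, hVW⟩ := hU
  obtain ⟨m, hm⟩ := Nott.exists_lev_subset hV
  intro x
  obtain ⟨u, rfl⟩ := QuotientGroup.mk_surjective x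
  set k := max m (N + 1) with hk
  refine ⟨k + 1, ?_⟩
  rw [← QuotientGroup.mk_pow, QuotientGroup.eq_one_iff]
  have h2 : (u.1 ^ p ^ k).1 ∈ Nott.lev p (N + 1) :=
    Nott.lev_mono (by omega) (Nott.pow_pow_mem_lev u.1.1 k)
  have h3 := snd_of_deep R (pow_mem u.2 (p ^ k)) h2
  obtain ⟨c, hc⟩ := h3
  have hc' : ζ ^ c = (u.1 ^ p ^ k).2 := hc
  have h4 : (u.1 ^ p ^ (k + 1)).2 = 1 := by
    rw [pow_succ, pow_mul]
    change ((u.1 ^ p ^ k).2) ^ p = 1
    rw [← hc', ← zpow_natCast, ← zpow_mul, mul_comm, zpow_mul, zpow_natCast, hζ, one_zpow]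
  have h5 : (u.1 ^ p ^ (k + 1)).1 ∈ Nott.lev p m :=
    Nott.lev_mono (by omega) (Nott.pow_pow_mem_lev u.1.1 (k + 1))
  apply hUM
  change (u ^ p ^ (k + 1)).1 ∈ U
  apply hVW
  refine ⟨hm h5, ?_⟩
  change (u.1 ^ p ^ (k + 1)).2 ∈ W
  rw [h4]
  exact mem_of_mem_nhds hW

/-- the projection onto the Nottingham group -/
noncomputable def pr (p N : ℕ) [Fact p.Prime] (γ : ℕ → Γ) (ζ : Γ) : HH p N γ ζ 0 →* Nott p :=
  (MonoidHom.fst (Nott p) Γ).comp (HH p N γ ζ 0).subtype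

theorem pr_continuous : Continuous (pr p N γ ζ) :=
  continuous_fst.comp continuous_subtype_val

theorem pr_surjective : Function.Surjective (pr p N γ ζ) := by
  intro f
  obtain ⟨u, hu, rfl⟩ := exists_lift (p := p) (N := N) (γ := γ) (ζ := ζ) f
  exact ⟨⟨u, hu⟩, rfl⟩

theorem HH_infinite : Infinite (HH p N γ ζ 0) :=
  Infinite.of_surjective _ (pr_surjective (p := p) (N := N) (γ := γ) (ζ := ζ))

theorem not_iso (R : Rels p N γ ζ) (h1 : ζ ≠ 1) : IsEmpty (HH p N γ ζ 0 ≃ₜ* Nott p) := by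
  constructor
  intro e
  have hz : ((1, ζ) : Nott p × Γ) ∈ HH p N γ ζ 0 :=
    KK_le 0 ⟨one_mem _, Subgroup.mem_zpowers ζ⟩
  have h2 : e ⟨(1, ζ), hz⟩ = 1 := by
    apply Nott.center_trivial
    intro g
    obtain ⟨u, rfl⟩ := e.surjective g
    rw [← map_mul, ← map_mul]
    congr 1
    apply Subtype.ext
    apply Prod.ext
    · change 1 * u.1.1 = u.1.1 * 1
      rw [one_mul, mul_one]
    · exact cent_all R u.2
  have h3 : (⟨(1, ζ), hz⟩ : HH p N γ ζ 0) = 1 := by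
    apply e.injective
    rw [h2, map_one]
  have h4 : (1, ζ) = (1 : Nott p × Γ) := congrArg Subtype.val h3
  exact h1 (congrArg Prod.snd h4)

end Assembly

section Five

variable {Γ : Type} [Group Γ] [Finite Γ] [TopologicalSpace Γ] [DiscreteTopology Γ]
variable {γ : ℕ → Γ} {ζ : Γ}

instance fact5 : Fact (Nat.Prime 5) := ⟨by norm_num⟩

noncomputable abbrev GG (γ : ℕ → Γ) (ζ : Γ) : Subgroup (Nott 5 × Γ) := HH 5 13 γ ζ 0

/-- the lift of `X + X^(i+2)` -/
noncomputable def lift (γ : ℕ → Γ) (ζ : Γ) (i : ℕ) (hi : i < 13) : GG γ ζ :=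
  ⟨hh 5 γ i, hh_mem (Nat.zero_le i) hi⟩

def PP (γ : ℕ → Γ) (ζ : Γ) (n i : ℕ) : Prop :=
  ∃ w ∈ gamma (GG γ ζ) n, w.1.1 ∈ Nott.lev 5 i ∧ Nott.lc i w.1.1 ≠ 0

theorem lc_comm_gx {i j : ℕ} (hi : 1 ≤ i) {f : Nott 5} (hf : f ∈ Nott.lev 5 i)
    (hl : Nott.lc i f ≠ 0) (h : (i : ZMod 5) ≠ ((j + 1 : ℕ) : ZMod 5)) :
    ⁅f, gx 5 j⁆ ∈ Nott.lev 5 (i + (j + 1)) ∧ Nott.lc (i + (j + 1)) ⁅f, gx 5 j⁆ ≠ 0 := by
  obtain ⟨h1, h2⟩ := Nott.lc_commutator hi (by omega) hf (gx_mem (p := 5) j)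
  refine ⟨h1, ?_⟩
  rw [h2, gx_lc, mul_one]
  exact mul_ne_zero (sub_ne_zero.2 h) hl

theorem step {n i : ℕ} (j : ℕ) (hj : j < 13) (hn : 1 ≤ n) (hi : 1 ≤ i) (h : PP γ ζ n i)
    (hne : (i : ZMod 5) ≠ ((j + 1 : ℕ) : ZMod 5)) : PP γ ζ (n + 1) (i + (j + 1)) := by
  obtain ⟨w, hw, hwi, hl⟩ := h
  refine ⟨⁅w, lift γ ζ j hj⁆, comm_mem_gamma hn hw _, ?_⟩
  exact lc_comm_gx hi hwi hl hne

theorem PP_ten : PP γ ζ 10 13 := by
  have h1 : PP γ ζ 1 2 := ⟨lift γ ζ 1 (by norm_num), trivial, gx_mem (p := 5) 1, by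
    change Nott.lc 2 (gx 5 1) ≠ 0
    have := gx_lc (p := 5) 1
    rw [show (2 : ℕ) = 1 + 1 from rfl, this]; decide⟩
  have h2 := step 0 (by norm_num) (by norm_num) (by norm_num) h1 (by decide)
  have h3 := step 0 (by norm_num) (by norm_num) (by norm_num) h2 (by decide)
  have h4 := step 0 (by norm_num) (by norm_num) (by norm_num) h3 (by decide)
  have h5 := step 1 (by norm_num) (by norm_num) (by norm_num) h4 (by decide)
  have h6 := step 0 (by norm_num) (by norm_num) (by norm_num) h5 (by decide)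
  have h7 := step 0 (by norm_num) (by norm_num) (by norm_num) h6 (by decide)
  have h8 := step 0 (by norm_num) (by norm_num) (by norm_num) h7 (by decide)
  have h9 := step 1 (by norm_num) (by norm_num) (by norm_num) h8 (by decide)
  have h10 := step 0 (by norm_num) (by norm_num) (by norm_num) h9 (by decide)
  exact h10

/-- `{f | (f, 1) ∈ gamma 11}` -/
noncomputable def SS (γ : ℕ → Γ) (ζ : Γ) : Subgroup (Nott 5) :=
  ((gamma (GG γ ζ) 11).map (GG γ ζ).subtype).comap (MonoidHom.inl (Nott 5) Γ)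

theorem mem_SS {f : Nott 5} : f ∈ SS γ ζ ↔ ∃ w ∈ gamma (GG γ ζ) 11, w.1 = (f, 1) := Iff.rfl

theorem SS_isClosed : IsClosed (SS γ ζ : Set (Nott 5)) := by
  have h1 : IsClosed (((gamma (GG γ ζ) 11).map (GG γ ζ).subtype : Subgroup (Nott 5 × Γ)) :
      Set (Nott 5 × Γ)) := by
    rw [Subgroup.coe_map]
    exact (HH_isClosed (p := 5) (N := 13) (γ := γ) (ζ := ζ) 0).isClosedEmbedding_subtypeVal.isClosedMap _
      (gamma_isClosed (G := GG γ ζ) 11)
  exact h1.preimage (Continuous.prodMk_left (1 : Γ))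

theorem comm_zeta (R : Rels 5 13 γ ζ) {i : ℕ} (hi : i < 13) {c : Γ} (hc : c ∈ Subgroup.zpowers ζ) :
    ⁅c, γ i⁆ = 1 := by
  obtain ⟨n, hn⟩ := hc
  have hn' : ζ ^ n = c := hn
  rw [← hn', commutatorElement_eq_one_iff_mul_comm]
  have : Commute ζ (γ i) := R.cent i hi
  exact (this.zpow_left n).eq

theorem SS_depth (R : Rels 5 13 γ ζ) (d : ℕ) (hd : 15 ≤ d) :
    ∃ s ∈ SS γ ζ, s ∈ Nott.lev 5 d ∧ Nott.lc d s ≠ 0 := by
  obtain ⟨w, hw, hwi, hl⟩ := PP_ten (γ := γ) (ζ := ζ)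
  have hv1 := comm_mem_gamma (by norm_num) hw (lift γ ζ 0 (by norm_num))
  have hv2 : ⁅w.1.1, gx 5 0⁆ ∈ Nott.lev 5 (13 + (0 + 1)) ∧
      Nott.lc (13 + (0 + 1)) ⁅w.1.1, gx 5 0⁆ ≠ 0 := lc_comm_gx (by norm_num) hwi hl (by decide)
  set v := ⁅w, lift γ ζ 0 (by norm_num)⁆ with hv
  have hvs : v.1.2 ∈ Subgroup.zpowers ζ := snd_of_deep R v.2 hv2.1
  have base : ∀ j, j < 13 → (14 : ZMod 5) ≠ ((j + 1 : ℕ) : ZMod 5) →
      ∃ s ∈ SS γ ζ, s ∈ Nott.lev 5 (14 + (j + 1)) ∧ Nott.lc (14 + (j + 1)) s ≠ 0 := by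
    intro j hj hne
    refine ⟨⁅v.1.1, gx 5 j⁆, ?_, ?_⟩
    · rw [mem_SS]
      refine ⟨⁅v, lift γ ζ j hj⁆, gamma_succ_le (by norm_num) (comm_mem_gamma (by norm_num) hv1 _), ?_⟩
      apply Prod.ext
      · rfl
      · change ⁅v.1.2, γ j⁆ = 1
        exact comm_zeta R hj hvs
    · exact lc_comm_gx (by norm_num) hv2.1 hv2.2 hne
  have next : ∀ (d j : ℕ), j < 13 → 1 ≤ d → (d : ZMod 5) ≠ ((j + 1 : ℕ) : ZMod 5) →
      (∃ s ∈ SS γ ζ, s ∈ Nott.lev 5 d ∧ Nott.lc d s ≠ 0) →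
      ∃ s ∈ SS γ ζ, s ∈ Nott.lev 5 (d + (j + 1)) ∧ Nott.lc (d + (j + 1)) s ≠ 0 := by
    rintro d j hj hd hne ⟨s, hs, hsd, hsl⟩
    refine ⟨⁅s, gx 5 j⁆, ?_, lc_comm_gx hd hsd hsl hne⟩
    rw [mem_SS] at *
    obtain ⟨u, hu, hue⟩ := hs
    refine ⟨⁅u, lift γ ζ j hj⁆, gamma_succ_le (by norm_num) (comm_mem_gamma (by norm_num) hu _), ?_⟩
    change ⁅u.1, hh 5 γ j⁆ = _
    rw [hue]
    apply Prod.ext
    · rfl
    · change ⁅(1 : Γ), γ j⁆ = 1
      exact commutatorElement_one_left _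
  induction d using Nat.strong_induction_on with
  | _ d ih =>
    rcases Nat.lt_or_ge d 17 with h | h
    · interval_cases d
      · exact base 0 (by norm_num) (by decide)
      · exact base 1 (by norm_num) (by decide)
    · by_cases h1 : ((d - 1 : ℕ) : ZMod 5) = 1
      · have h2 : ((d - 2 : ℕ) : ZMod 5) ≠ ((1 + 1 : ℕ) : ZMod 5) := by
          have e : ((d - 1 : ℕ) : ZMod 5) = ((d - 2 : ℕ) : ZMod 5) + 1 := by
            rw [show d - 1 = (d - 2) + 1 by omega]; push_cast; rfl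
          rw [e] at h1
          have h3 : ((d - 2 : ℕ) : ZMod 5) = 0 := by
            have := congrArg (fun z => z - 1) h1
            simpa using this
          rw [h3]; decide
        have := next (d - 2) 1 (by norm_num) (by omega) h2 (ih (d - 2) (by omega) (by omega))
        rwa [show d - 2 + (1 + 1) = d by omega] at this
      · have h2 : ((d - 1 : ℕ) : ZMod 5) ≠ ((0 + 1 : ℕ) : ZMod 5) := by
          simpa using h1
        have := next (d - 1) 0 (by norm_num) (by omega) h2 (ih (d - 1) (by omega) (by omega))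
        rwa [show d - 1 + (0 + 1) = d by omega] at this

theorem lev_le_SS (R : Rels 5 13 γ ζ) : Nott.lev 5 15 ≤ SS γ ζ :=
  Nott.lev_le_of_depths SS_isClosed (by norm_num) fun d hd => SS_depth R d hd

theorem comm_calc {Δ : Type*} [Group Δ] {g h z : Δ} (hzg : Commute z g) (hzh : Commute z h) {b : ℤ}
    (e : g * h = h * g * z ^ b) (a c : ℤ) : ⁅g ^ a * z ^ c, h⁆ = z ^ (b * a) := by
  have h1 : h⁻¹ * g * h = g * z ^ b := by
    rw [mul_assoc, e]; group
  have h2 : h⁻¹ * g ^ a * h = g ^ a * z ^ (b * a) := by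
    have h3 : (h⁻¹ * g * (h⁻¹)⁻¹) ^ a = h⁻¹ * g ^ a * (h⁻¹)⁻¹ := conj_zpow
    rw [inv_inv] at h3
    rw [← h3, h1, (hzg.symm.zpow_right b).mul_zpow, zpow_mul]
  have h4 : g ^ a * h = h * (g ^ a * z ^ (b * a)) := by
    rw [← h2]; group
  have hA : Commute (z ^ (b * a)) (g ^ a * z ^ c) :=
    ((hzg.zpow_zpow (b * a) a)).mul_right ((Commute.refl z).zpow_zpow _ _)
  have hB : Commute (z ^ (b * a)) h := hzh.zpow_left _
  have hC : Commute (z ^ c) h := hzh.zpow_left _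
  have h5 : g ^ a * z ^ c * h = h * (g ^ a * z ^ c) * z ^ (b * a) := by
    rw [mul_assoc, hC.eq, ← mul_assoc, h4]
    rw [mul_assoc, mul_assoc, mul_assoc, mul_assoc]
    congr 2
    rw [← zpow_add, ← zpow_add, add_comm]
  rw [commutatorElement_def, h5]
  rw [show h * (g ^ a * z ^ c) * z ^ (b * a) * (g ^ a * z ^ c)⁻¹ * h⁻¹ =
    h * ((g ^ a * z ^ c) * z ^ (b * a)) * (g ^ a * z ^ c)⁻¹ * h⁻¹ by group]
  rw [← hA.eq]
  rw [show h * (z ^ (b * a) * (g ^ a * z ^ c)) * (g ^ a * z ^ c)⁻¹ * h⁻¹ =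
    h * z ^ (b * a) * h⁻¹ by group]
  rw [← hB.eq, mul_inv_cancel_right]

theorem zeta_mem (R : Rels 5 13 γ ζ) (hζ : ζ ^ 5 = 1) {b : ℤ} (hb : ¬ (5 : ℤ) ∣ b)
    (e : γ 12 * γ 1 = γ 1 * γ 12 * ζ ^ b) :
    ∃ w ∈ gamma (GG γ ζ) 11, w.1 = (1, ζ) := by
  obtain ⟨w, hw, hwi, hl⟩ := PP_ten (γ := γ) (ζ := ζ)
  have hc1 := comm_mem_gamma (by norm_num) hw (lift γ ζ 1 (by norm_num))
  have hc2 : ⁅w.1.1, gx 5 1⁆ ∈ Nott.lev 5 (13 + (1 + 1)) ∧
      Nott.lc (13 + (1 + 1)) ⁅w.1.1, gx 5 1⁆ ≠ 0 := lc_comm_gx (by norm_num) hwi hl (by decide)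
  obtain ⟨u, hu, hue⟩ := mem_SS.1 (lev_le_SS R hc2.1)
  have h12 : w.1 ∈ HH 5 13 γ ζ 12 := peel_to R (by norm_num) w.2 hwi
  obtain ⟨a, v, hv, hwe⟩ := decomp R (by norm_num) h12
  rw [HH_bot] at hv
  obtain ⟨c, hc⟩ := hv.2
  have hc' : ζ ^ c = v.2 := hc
  have hwa : ¬ (5 : ℤ) ∣ a := by
    intro hdvd
    apply hl
    rw [hwe]
    change Nott.lc 13 (gx 5 12 ^ a * v.1) = 0
    have hv1 : v.1 ∈ Nott.lev 5 13 := Nott.lev_mono (by norm_num) hv.1
    rw [Nott.lc_mul (by norm_num) (zpow_mem (gx_mem (p := 5) 12) a) hv1,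
      Nott.lc_zpow (by norm_num) (gx_mem (p := 5) 12)]
    have h13 : Nott.lc 13 v.1 = 0 := ((Nott.mem_lev_succ (by norm_num)).1 hv.1).2
    rw [h13, (ZMod.intCast_zmod_eq_zero_iff_dvd a 5).2 hdvd, zero_mul, zero_add]
  have hz : Commute ζ (γ 12) := R.cent 12 (by norm_num)
  have hz1 : Commute ζ (γ 1) := R.cent 1 (by norm_num)
  have h2 : ⁅w.1.2, γ 1⁆ = ζ ^ (b * a) := by
    have : w.1.2 = γ 12 ^ a * ζ ^ c := by
      rw [hwe, hc']; rfl
    rw [this]
    exact comm_calc hz hz1 e a c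
  -- (1, ζ^(b a)) in gamma 11
  have h3 : ∃ w' ∈ gamma (GG γ ζ) 11, w'.1 = (1, ζ ^ (b * a)) := by
    refine ⟨u⁻¹ * ⁅w, lift γ ζ 1 (by norm_num)⁆, mul_mem (inv_mem hu) hc1, ?_⟩
    change (u.1)⁻¹ * ⁅w.1, hh 5 γ 1⁆ = _
    rw [hue]
    apply Prod.ext
    · change (⁅w.1.1, gx 5 1⁆)⁻¹ * ⁅w.1.1, gx 5 1⁆ = 1
      rw [inv_mul_cancel]
    · change (1 : Γ)⁻¹ * ⁅w.1.2, γ 1⁆ = _
      rw [h2, inv_one, one_mul]
  obtain ⟨w', hw', he'⟩ := h3
  have hba : ¬ (5 : ℤ) ∣ b * a := by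
    intro h
    rcases (Int.Prime.dvd_mul' (p := 5) (by norm_num) (by exact_mod_cast h)) with h | h
    · exact hb (by exact_mod_cast h)
    · exact hwa (by exact_mod_cast h)
  have hcop : IsCoprime (5 : ℤ) (b * a) := by
    rw [Int.isCoprime_iff_gcd_eq_one]
    exact (Int.isCoprime_iff_gcd_eq_one.1 ((Int.prime_iff_natAbs_prime.2 (by norm_num) :
      Prime (5 : ℤ)).coprime_iff_not_dvd.2 hba))
  obtain ⟨s, t, hst⟩ := hcop
  refine ⟨w' ^ t, zpow_mem hw' t, ?_⟩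
  change w'.1 ^ t = _
  rw [he']
  apply Prod.ext
  · change (1 : Nott 5) ^ t = 1
    rw [one_zpow]
  · change (ζ ^ (b * a)) ^ t = ζ
    rw [← zpow_mul]
    have : b * a * t = 1 - 5 * s := by linarith
    rw [this, zpow_sub, zpow_one, zpow_mul]
    have h5 : ζ ^ (5 : ℤ) = 1 := by exact_mod_cast hζ
    rw [h5, one_zpow, inv_one, mul_one]

theorem ker_le (R : Rels 5 13 γ ζ) (hζ : ζ ^ 5 = 1) {b : ℤ} (hb : ¬ (5 : ℤ) ∣ b)
    (e : γ 12 * γ 1 = γ 1 * γ 12 * ζ ^ b) : (pr 5 13 γ ζ).ker ≤ gamma (GG γ ζ) 11 := by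
  intro u hu
  have h1 : u.1.1 = 1 := hu
  have h2 : u.1.2 ∈ Subgroup.zpowers ζ := snd_of_deep R u.2 (by rw [h1]; exact one_mem _)
  obtain ⟨n, hn⟩ := h2
  have hn' : ζ ^ n = u.1.2 := hn
  obtain ⟨w, hw, hwe⟩ := zeta_mem R hζ hb e
  have h3 : u = w ^ n := by
    apply Subtype.ext
    change u.1 = w.1 ^ n
    rw [hwe]
    apply Prod.ext
    · change u.1.1 = (1 : Nott 5) ^ n
      rw [h1, one_zpow]
    · exact hn'.symm
  rw [h3]
  exact zpow_mem hw n

theorem five_of_rels (R : Rels 5 13 γ ζ) (hζ : ζ ^ 5 = 1) (h1 : ζ ≠ 1) {b : ℤ}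
    (hb : ¬ (5 : ℤ) ∣ b) (e : γ 12 * γ 1 = γ 1 * γ 12 * ζ ^ b) :
    ∃ (G : Type) (_ : Group G) (_ : TopologicalSpace G) (_ : IsTopologicalGroup G),
      IsProP G 5 ∧ Infinite G ∧
      Nonempty ((G ⧸ gamma G (2 * 5 + 1)) ≃ₜ* (Nott 5 ⧸ gamma (Nott 5) (2 * 5 + 1))) ∧
      IsEmpty (G ≃ₜ* Nott 5) :=
  ⟨GG γ ζ, inferInstance, inferInstance, inferInstance, HH_isProP R hζ, HH_infinite,
    exists_quotient_iso (pr 5 13 γ ζ) pr_continuous pr_surjective 11 (ker_le R hζ hb e),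
    not_iso R h1⟩

end Five

end Pool.Agent.Helper168.NottDefs
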